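import Pool.Agent.W273.HL.Shift

/-!
Polynomial bounds for the coefficients.
-/

set_option autoImplicit false

namespace Pool.Agent.W273.HL

open Finset

/-- parameters: the curve, the square root `w` of the abscissa, the ordinate, the height bound and
the distance `r` of `w` to the integer -/
structure Pt where
  A : ℝ
  B : ℝ
  w : ℝ
  y : ℝ
  r : ℝ
  H : ℝ

/-- the domain of the parameters -/
structure Dom (p : Pt) : Prop where
  hH : 1 ≤ p.H
  hA : |p.A| ≤ p.H
  hB : |p.B| ≤ p.H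
  hw : 1 ≤ p.w
  hy0 : 0 ≤ p.y
  hy : p.y ^ 2 = (p.w ^ 2) ^ 3 + p.A * p.w ^ 2 + p.B
  hr : |p.r| ≤ 1

/-- polynomially bounded in `H` -/
def PB (g : Pt → ℝ) : Prop := ∃ C : ℝ, ∃ e : ℕ, 0 ≤ C ∧ ∀ p, Dom p → |g p| ≤ C * p.H ^ e

lemma PB.congr {g h : Pt → ℝ} (hg : PB g) (he : ∀ p, Dom p → h p = g p) : PB h := by
  obtain ⟨C, e, hC, hb⟩ := hg
  exact ⟨C, e, hC, fun p hp => by rw [he p hp]; exact hb p hp⟩

lemma PB.const (c : ℝ) : PB (fun _ => c) :=
  ⟨|c|, 0, abs_nonneg c, fun p _ => by simp⟩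

lemma PB.add {g h : Pt → ℝ} (hg : PB g) (hh : PB h) : PB (fun p => g p + h p) := by
  obtain ⟨C, e, hC, hb⟩ := hg
  obtain ⟨C', e', hC', hb'⟩ := hh
  refine ⟨C + C', e + e', by positivity, fun p hp => ?_⟩
  have h1 := hb p hp
  have h2 := hb' p hp
  have hH := hp.hH
  have h3 : p.H ^ e ≤ p.H ^ (e + e') := pow_le_pow_right₀ hH (by omega)
  have h4 : p.H ^ e' ≤ p.H ^ (e + e') := pow_le_pow_right₀ hH (by omega)
  calc |g p + h p| ≤ |g p| + |h p| := abs_add_le _ _
    _ ≤ C * p.H ^ e + C' * p.H ^ e' := add_le_add h1 h2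
    _ ≤ C * p.H ^ (e + e') + C' * p.H ^ (e + e') := by gcongr
    _ = (C + C') * p.H ^ (e + e') := by ring

lemma PB.mul {g h : Pt → ℝ} (hg : PB g) (hh : PB h) : PB (fun p => g p * h p) := by
  obtain ⟨C, e, hC, hb⟩ := hg
  obtain ⟨C', e', hC', hb'⟩ := hh
  refine ⟨C * C', e + e', by positivity, fun p hp => ?_⟩
  have h1 := hb p hp
  have h2 := hb' p hp
  have hH := hp.hH
  have hH0 : 0 ≤ p.H := by linarith
  calc |g p * h p| = |g p| * |h p| := abs_mul _ _
    _ ≤ (C * p.H ^ e) * (C' * p.H ^ e') := mul_le_mul h1 h2 (abs_nonneg _) (by positivity)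
    _ = (C * C') * p.H ^ (e + e') := by rw [pow_add]; ring

lemma PB.neg {g : Pt → ℝ} (hg : PB g) : PB (fun p => -g p) := by
  obtain ⟨C, e, hC, hb⟩ := hg
  exact ⟨C, e, hC, fun p hp => by rw [abs_neg]; exact hb p hp⟩

lemma PB.sub {g h : Pt → ℝ} (hg : PB g) (hh : PB h) : PB (fun p => g p - h p) :=
  (hg.add hh.neg).congr (fun p _ => by ring)

lemma PB.smul {g : Pt → ℝ} (c : ℝ) (hg : PB g) : PB (fun p => c * g p) :=
  (PB.const c).mul hg

lemma PB.sum {ι : Type} (s : Finset ι) (g : ι → Pt → ℝ) (hg : ∀ i ∈ s, PB (g i)) :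
    PB (fun p => ∑ i ∈ s, g i p) := by
  classical
  induction s using Finset.induction_on with
  | empty => simpa using PB.const 0
  | insert i s hi ih =>
    have h1 := (hg i (Finset.mem_insert_self i s)).add
      (ih (fun j hj => hg j (Finset.mem_insert_of_mem hj)))
    exact h1.congr (fun p _ => by rw [Finset.sum_insert hi])

lemma PB.pow {g : Pt → ℝ} (hg : PB g) (n : ℕ) : PB (fun p => g p ^ n) := by
  induction n with
  | zero => simpa using PB.const 1
  | succ n ih => exact (ih.mul hg).congr (fun p _ => by rw [pow_succ])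

lemma PB_A : PB (fun p => p.A) := ⟨1, 1, by norm_num, fun p hp => by simpa using hp.hA⟩
lemma PB_B : PB (fun p => p.B) := ⟨1, 1, by norm_num, fun p hp => by simpa using hp.hB⟩
lemma PB_r : PB (fun p => p.r) := ⟨1, 0, by norm_num, fun p hp => by simpa using hp.hr⟩

lemma PB_winv : PB (fun p => 1 / p.w) := by
  refine ⟨1, 0, by norm_num, fun p hp => ?_⟩
  have h1 := hp.hw
  rw [abs_of_nonneg (by positivity), pow_zero, mul_one]
  rw [div_le_one (by linarith)]
  exact h1

lemma PB_q (n : ℕ) : PB (fun p => q p.A p.B n) := by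
  induction n using Nat.strong_induction_on with
  | _ n ih =>
    by_cases h0 : n = 0
    · subst h0
      exact (PB.const 1).congr (fun p _ => q_zero _ _)
    · by_cases h6 : n = 6
      · subst h6
        refine (PB.smul (-1 / 7) PB_B).congr (fun p _ => ?_)
        rw [q_six]; ring
      · have h1 : ((n : ℝ) + 1) ≠ 0 := by positivity
        have h2 : ((n : ℝ) - 6) ≠ 0 := by
          intro h
          apply h6
          have : (n : ℝ) = 6 := by linarith
          exact_mod_cast this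
        have hs : PB (fun p => 6 * ∑ i ∈ range (n - 1), q p.A p.B (i + 1) * q p.A p.B (n - 1 - i)
            + if n = 4 then 2 * p.A else 0) := by
          apply PB.add
          · apply PB.smul
            apply PB.sum
            intro i hi
            rw [mem_range] at hi
            exact (ih (i + 1) (by omega)).mul (ih (n - 1 - i) (by omega))
          · split_ifs
            · exact PB.smul 2 PB_A
            · exact PB.const 0
        refine (PB.smul (1 / (((n : ℝ) + 1) * ((n : ℝ) - 6))) hs).congr (fun p _ => ?_)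
        rw [← q_rec p.A p.B n h0 h6]
        field_simp

/-- the ordinate is close to `w³` -/
lemma PB_eta : PB (fun p => p.w * (p.y - p.w ^ 3)) := by
  refine ⟨2, 1, by norm_num, fun p hp => ?_⟩
  obtain ⟨hH, hA, hB, hw, hy0, hy, -⟩ := hp
  set A := p.A
  set B := p.B
  set w := p.w
  set y := p.y
  set H := p.H
  have hw0 : 0 < w := by linarith
  have hw3 : 0 < w ^ 3 := by positivity
  have h1 : (y - w ^ 3) * (y + w ^ 3) = A * w ^ 2 + B := by linear_combination hy
  have h2 : |A * w ^ 2 + B| ≤ 2 * H * w ^ 2 := by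
    have hw2 : 1 ≤ w ^ 2 := one_le_pow₀ hw
    calc |A * w ^ 2 + B| ≤ |A * w ^ 2| + |B| := abs_add_le _ _
      _ = |A| * w ^ 2 + |B| := by rw [abs_mul, abs_of_pos (by positivity : 0 < w ^ 2)]
      _ ≤ H * w ^ 2 + H := by gcongr
      _ ≤ 2 * H * w ^ 2 := by nlinarith
  have h3 : |y - w ^ 3| * w ^ 3 ≤ 2 * H * w ^ 2 := by
    calc |y - w ^ 3| * w ^ 3 ≤ |y - w ^ 3| * (y + w ^ 3) := by gcongr; linarith
      _ = |(y - w ^ 3) * (y + w ^ 3)| := by
        rw [abs_mul, abs_of_pos (by linarith : 0 < y + w ^ 3)]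
      _ = |A * w ^ 2 + B| := by rw [h1]
      _ ≤ _ := h2
  rw [abs_mul, abs_of_pos hw0, pow_one]
  have h4 : (w * |y - w ^ 3|) * w ^ 2 ≤ (2 * H) * w ^ 2 := by
    calc (w * |y - w ^ 3|) * w ^ 2 = |y - w ^ 3| * w ^ 3 := by ring
      _ ≤ _ := h3
  exact le_of_mul_le_mul_right h4 (by positivity)

/-- the first three terms vanish -/
lemma sum_shift (A B : ℝ) (φ : ℕ → ℝ) (n : ℕ) :
    ∑ i ∈ range (n + 3), q A B (i + 1) * φ i = ∑ i ∈ range n, q A B (i + 4) * φ (i + 3) := by
  rw [Finset.sum_range_succ', Finset.sum_range_succ', Finset.sum_range_succ']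
  have e1 : q A B (0 + 1) = 0 := q_one A B
  have e2 : q A B (0 + 1 + 1) = 0 := q_two A B
  have e3 : q A B (0 + 1 + 1 + 1) = 0 := q_three A B
  rw [e1, e2, e3]
  simp only [zero_mul, add_zero]

/-- `R3` in a convenient form -/
lemma R3' (A B w y : ℝ) (hy : y ^ 2 = (w ^ 2) ^ 3 + A * w ^ 2 + B) (l : ℕ) :
    w ^ 2 * (l + 4) * (l + 3) * (l + 1) * g A B w y (l + 4) =
      ((l : ℝ) + 2) * ∑ i ∈ range (l + 3), q A B (i + 4) *
          ((2 + ((l : ℝ) + 3) * (3 / 2 * ((l + 2 - i : ℕ) : ℝ) - ((l : ℝ) + 6) / 2)) *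
            g A B w y (l + 2 - i))
        + ((l : ℝ) + 2) * (l + 3) * ((y - w ^ 3) * g A B w y (l + 3))
        + ((l : ℝ) + 4) * (l + 1) * (w * (∑ i ∈ range l, q A B (i + 4) * g A B w y (l + 1 - i)
            + q A B (l + 5) - w * q A B (l + 4))) := by
  have h := R3 A B w y hy (l + 3)
  rw [sum_shift A B (fun i => g A B w y (l + 3 + 2 - i)) (l + 3)] at h
  rw [sum_shift A B (fun i => ((3 / 2 * ((l + 3 + 2 - i : ℕ) : ℝ) - (((l + 3 : ℕ) : ℝ) + 3) / 2) *
    g A B w y (l + 3 + 2 - i))) (l + 3)] at h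
  rw [show l + 3 + 2 = (l + 2) + 3 by ring,
    sum_shift A B (fun i => g A B w y (l + 3 + 1 - i)) (l + 2)] at h
  rw [Finset.sum_range_succ (fun i => q A B (i + 4) * g A B w y (l + 3 + 1 - (i + 3))) (l + 1),
    Finset.sum_range_succ (fun i => q A B (i + 4) * g A B w y (l + 3 + 1 - (i + 3))) l] at h
  have e1 : l + 3 + 1 - (l + 1 + 3) = 0 := by omega
  have e2 : l + 3 + 1 - (l + 3) = 1 := by omega
  rw [e1, e2, g_zero, g_one] at h
  have s1 : ∑ i ∈ range l, q A B (i + 4) * g A B w y (l + 3 + 1 - (i + 3)) =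
      ∑ i ∈ range l, q A B (i + 4) * g A B w y (l + 1 - i) := by
    apply Finset.sum_congr rfl
    intro i _
    have : l + 3 + 1 - (i + 3) = l + 1 - i := by omega
    rw [this]
  have s2 : ∑ i ∈ range (l + 3), q A B (i + 4) *
          ((2 + ((l : ℝ) + 3) * (3 / 2 * ((l + 2 - i : ℕ) : ℝ) - ((l : ℝ) + 6) / 2)) *
            g A B w y (l + 2 - i)) =
      2 * ∑ i ∈ range (l + 3), q A B (i + 4) * g A B w y (l + 3 + 2 - (i + 3)) +
      ((l : ℝ) + 3) * ∑ i ∈ range (l + 3), q A B (i + 4) *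
        ((3 / 2 * ((l + 3 + 2 - (i + 3) : ℕ) : ℝ) - (((l + 3 : ℕ) : ℝ) + 3) / 2) *
          g A B w y (l + 3 + 2 - (i + 3))) := by
    rw [Finset.mul_sum, Finset.mul_sum, ← Finset.sum_add_distrib]
    apply Finset.sum_congr rfl
    intro i _
    have : l + 3 + 2 - (i + 3) = l + 2 - i := by omega
    rw [this]
    push_cast
    ring
  rw [s1] at h
  rw [s2]
  push_cast at h ⊢
  have e3 : l + 3 + 1 = l + 4 := by ring
  have e4 : l + 1 + 4 = l + 5 := by ring
  rw [e3, e4] at h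
  linear_combination h

/-- the remainder `w (g_n + q_n / (n-1))` -/
noncomputable def rem (n : ℕ) (p : Pt) : ℝ :=
  p.w * (g p.A p.B p.w p.y n + q p.A p.B n / ((n : ℝ) - 1))

lemma g_of_rem (n : ℕ) (p : Pt) (hp : Dom p) :
    g p.A p.B p.w p.y n = (1 / p.w) * rem n p + (-1 / ((n : ℝ) - 1)) * q p.A p.B n := by
  have h1 := hp.hw
  have h2 : p.w ≠ 0 := by linarith
  unfold rem
  field_simp
  ring

lemma PB_g_of_rem (n : ℕ) (h : PB (rem n)) : PB (fun p => g p.A p.B p.w p.y n) :=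
  ((PB_winv.mul h).add (PB.smul (-1 / ((n : ℝ) - 1)) (PB_q n))).congr (g_of_rem n)

lemma PB_rem (n : ℕ) (hn : 2 ≤ n) : PB (rem n) := by
  induction n using Nat.strong_induction_on with
  | _ n ih =>
    have hG : ∀ m, 2 ≤ m → m < n → PB (fun p => g p.A p.B p.w p.y m) :=
      fun m h2 hm => PB_g_of_rem m (ih m hm h2)
    have hGw : ∀ m, m < n → PB (fun p => (1 / p.w) * g p.A p.B p.w p.y m) := by
      intro m hm
      rcases m with _ | _ | m
      · exact PB_winv.congr (fun p _ => by rw [g_zero, mul_one])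
      · refine (PB.const (-1)).congr (fun p hp => ?_)
        have h1 := hp.hw
        have h2 : p.w ≠ 0 := by linarith
        show 1 / p.w * g p.A p.B p.w p.y 1 = -1
        rw [g_one]; field_simp
      · exact PB_winv.mul (hG _ (by omega) hm)
    by_cases h2 : n = 2
    · subst h2
      refine (PB.const 0).congr (fun p hp => ?_)
      unfold rem
      rw [g_two, q_two]; simp
    · by_cases h3 : n = 3
      · subst h3
        refine (PB.smul (-1 / 3) PB_eta).congr (fun p hp => ?_)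
        unfold rem
        rw [g_three, q_three]; ring
      · obtain ⟨l, rfl⟩ : ∃ l, n = l + 4 := ⟨n - 4, by omega⟩
        have t1 : PB (fun p => ∑ i ∈ range (l + 3), q p.A p.B (i + 4) *
          ((2 + ((l : ℝ) + 3) * (3 / 2 * ((l + 2 - i : ℕ) : ℝ) - ((l : ℝ) + 6) / 2)) *
            ((1 / p.w) * g p.A p.B p.w p.y (l + 2 - i)))) := by
          apply PB.sum
          intro i hi
          apply (PB_q _).mul
          apply PB.smul
          exact hGw _ (by omega)
        have t2 : PB (fun p => (p.w * (p.y - p.w ^ 3)) * ((1 / p.w) * ((1 / p.w) *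
            g p.A p.B p.w p.y (l + 3)))) :=
          PB_eta.mul (PB_winv.mul (hGw _ (by omega)))
        have t3 : PB (fun p => (∑ i ∈ range l, q p.A p.B (i + 4) *
            g p.A p.B p.w p.y (l + 1 - i)) + q p.A p.B (l + 5)) := by
          apply PB.add _ (PB_q _)
          apply PB.sum
          intro i hi
          rw [mem_range] at hi
          exact (PB_q _).mul (hG _ (by omega) (by omega))
        have t := ((PB.smul (((l : ℝ) + 2) / (((l : ℝ) + 4) * (l + 3) * (l + 1))) t1).add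
          (PB.smul (((l : ℝ) + 2) / (((l : ℝ) + 4) * (l + 1))) t2)).add
          (PB.smul (1 / ((l : ℝ) + 3)) t3)
        refine t.congr (fun p hp => ?_)
        have hR := R3' p.A p.B p.w p.y hp.hy l
        have hw1 := hp.hw
        have hw : p.w ≠ 0 := by linarith
        have s1 : ∑ i ∈ range (l + 3), q p.A p.B (i + 4) *
          ((2 + ((l : ℝ) + 3) * (3 / 2 * ((l + 2 - i : ℕ) : ℝ) - ((l : ℝ) + 6) / 2)) *
            ((1 / p.w) * g p.A p.B p.w p.y (l + 2 - i))) = (1 / p.w) *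
            ∑ i ∈ range (l + 3), q p.A p.B (i + 4) *
          ((2 + ((l : ℝ) + 3) * (3 / 2 * ((l + 2 - i : ℕ) : ℝ) - ((l : ℝ) + 6) / 2)) *
            g p.A p.B p.w p.y (l + 2 - i)) := by
          rw [Finset.mul_sum]
          apply Finset.sum_congr rfl
          intro i _
          ring
        rw [s1]
        unfold rem
        set S1 := ∑ i ∈ range (l + 3), q p.A p.B (i + 4) *
          ((2 + ((l : ℝ) + 3) * (3 / 2 * ((l + 2 - i : ℕ) : ℝ) - ((l : ℝ) + 6) / 2)) *
            g p.A p.B p.w p.y (l + 2 - i))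
        set S2 := ∑ i ∈ range l, q p.A p.B (i + 4) * g p.A p.B p.w p.y (l + 1 - i)
        have k1 : ((l : ℝ) + 4) ≠ 0 := by positivity
        have k2 : ((l : ℝ) + 3) ≠ 0 := by positivity
        have k3 : ((l : ℝ) + 1) ≠ 0 := by positivity
        push_cast
        have k4 : ((l : ℝ) + 4 - 1) = l + 3 := by ring
        rw [k4]
        have k5 : g p.A p.B p.w p.y (l + 4) = (((l : ℝ) + 2) * S1
          + ((l : ℝ) + 2) * (l + 3) * ((p.y - p.w ^ 3) * g p.A p.B p.w p.y (l + 3))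
          + ((l : ℝ) + 4) * (l + 1) * (p.w * (S2 + q p.A p.B (l + 5) -
              p.w * q p.A p.B (l + 4)))) / (p.w ^ 2 * (l + 4) * (l + 3) * (l + 1)) := by
          rw [eq_div_iff (by positivity)]
          linarith
        rw [k5]
        field_simp
        ring

lemma PB_g (n : ℕ) (hn : 2 ≤ n) : PB (fun p => g p.A p.B p.w p.y n) :=
  PB_g_of_rem n (PB_rem n hn)

/-- the main estimate: the coefficients for `a = w - r` -/
lemma est (J : ℕ) (hJ : 1 ≤ J) : ∃ C : ℝ, ∃ e : ℕ, 0 ≤ C ∧ ∀ p, Dom p →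
    |f p.A p.B (p.w - p.r) (p.w ^ 2) (sp (p.w ^ 2) p.y (p.w - p.r)) (J + 1)
      + q p.A p.B (J + 1) / J + p.w * p.r ^ J / (J.factorial : ℝ)| ≤
      C * p.H ^ e * (|p.r| + 1 / p.w) := by
  obtain ⟨j, rfl⟩ : ∃ j, J = j + 1 := ⟨J - 1, by omega⟩
  have t1 : PB (fun p => p.r ^ (j + 1) / ((j + 2).factorial : ℝ) +
      ∑ i ∈ range j, p.r ^ i / ((i + 1).factorial : ℝ) * g p.A p.B p.w p.y (j + 1 - i)) := by
    apply PB.add
    · exact (PB.smul (1 / ((j + 2).factorial : ℝ)) (PB_r.pow (j + 1))).congr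
        (fun p _ => by ring)
    · apply PB.sum
      intro i hi
      rw [mem_range] at hi
      refine PB.mul ?_ (PB_g _ (by omega))
      exact (PB.smul (1 / ((i + 1).factorial : ℝ)) (PB_r.pow i)).congr
        (fun p _ => by ring)
  have t2 := PB_rem (j + 2) (by omega)
  obtain ⟨C1, e1, hC1, hb1⟩ := t1
  obtain ⟨C2, e2, hC2, hb2⟩ := t2
  refine ⟨C1 + C2, e1 + e2, by positivity, fun p hp => ?_⟩
  have b1 := hb1 p hp
  have b2 := hb2 p hp
  have hH := hp.hH
  have hw1 := hp.hw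
  have hw : p.w ≠ 0 := by linarith
  have key : f p.A p.B (p.w - p.r) (p.w ^ 2) (sp (p.w ^ 2) p.y (p.w - p.r)) (j + 1 + 1)
      + q p.A p.B (j + 1 + 1) / ((j + 1 : ℕ) : ℝ) + p.w * p.r ^ (j + 1) / ((j + 1).factorial : ℝ) =
      p.r * (p.r ^ (j + 1) / ((j + 2).factorial : ℝ) +
      ∑ i ∈ range j, p.r ^ i / ((i + 1).factorial : ℝ) * g p.A p.B p.w p.y (j + 1 - i)) +
      (1 / p.w) * rem (j + 2) p := by
    rw [f_shift, show p.w - (p.w - p.r) = p.r by ring]
    rw [show j + 1 + 1 + 1 = j + 1 + 1 + 1 by rfl, Finset.sum_range_succ, Finset.sum_range_succ,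
      Finset.sum_range_succ']
    have a1 : j + 1 + 1 - (j + 1 + 1) = 0 := by omega
    have a2 : j + 1 + 1 - (j + 1) = 1 := by omega
    rw [a1, a2, g_zero, g_one]
    simp only [Nat.sub_zero, pow_zero, Nat.factorial_zero, Nat.cast_one, div_one, one_mul]
    rw [g_of_rem (j + 1 + 1) p hp]
    have s1 : ∑ k ∈ range j, p.r ^ (k + 1) / ((k + 1).factorial : ℝ) *
        g p.A p.B p.w p.y (j + 1 + 1 - (k + 1)) =
        p.r * ∑ i ∈ range j, p.r ^ i / ((i + 1).factorial : ℝ) *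
          g p.A p.B p.w p.y (j + 1 - i) := by
      rw [Finset.mul_sum]
      apply Finset.sum_congr rfl
      intro i _
      have : j + 1 + 1 - (i + 1) = j + 1 - i := by omega
      rw [this]; ring
    rw [s1]
    have k3 : ((j : ℝ) + 1) ≠ 0 := by positivity
    push_cast
    have k4 : (j : ℝ) + 1 + 1 - 1 = j + 1 := by ring
    rw [k4]
    ring
  rw [key]
  have hH0 : 0 ≤ p.H := by linarith
  have h3 : p.H ^ e1 ≤ p.H ^ (e1 + e2) := pow_le_pow_right₀ hH (by omega)
  have h4 : p.H ^ e2 ≤ p.H ^ (e1 + e2) := pow_le_pow_right₀ hH (by omega)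
  have hwi : 0 ≤ 1 / p.w := by positivity
  set G1 := (p.r ^ (j + 1) / ((j + 2).factorial : ℝ) +
      ∑ i ∈ range j, p.r ^ i / ((i + 1).factorial : ℝ) * g p.A p.B p.w p.y (j + 1 - i))
  set G2 := rem (j + 2) p
  calc |p.r * G1 + 1 / p.w * G2| ≤ |p.r * G1| + |1 / p.w * G2| := abs_add_le _ _
    _ = |p.r| * |G1| + (1 / p.w) * |G2| := by rw [abs_mul, abs_mul, abs_of_nonneg hwi]
    _ ≤ |p.r| * (C1 * p.H ^ e1) + (1 / p.w) * (C2 * p.H ^ e2) := by gcongr
    _ ≤ |p.r| * (C1 * p.H ^ (e1 + e2)) + (1 / p.w) * (C2 * p.H ^ (e1 + e2)) := by gcongr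
    _ ≤ (C1 + C2) * p.H ^ (e1 + e2) * (|p.r| + 1 / p.w) := by
      have u1 : 0 ≤ |p.r| * (C2 * p.H ^ (e1 + e2)) := by positivity
      have u2 : 0 ≤ (1 / p.w) * (C1 * p.H ^ (e1 + e2)) := by positivity
      nlinarith

end Pool.Agent.W273.HL
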