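import Pool.Agent.W273.HL.Lame

/-!
Bounded denominators of the coefficients at integer points.
-/

set_option autoImplicit false

namespace Pool.Agent.W273.HL

open Finset

/-- integer parameters -/
structure IPt where
  A : ℤ
  B : ℤ
  a : ℤ
  x : ℤ
  y : ℤ

/-- bounded denominators -/
def DB (g : IPt → ℝ) : Prop := ∃ D : ℕ, 0 < D ∧ ∀ p, ∃ z : ℤ, (D : ℝ) * g p = z

lemma DB.congr {g h : IPt → ℝ} (hg : DB g) (he : ∀ p, h p = g p) : DB h := by
  obtain ⟨D, hD, hb⟩ := hg
  exact ⟨D, hD, fun p => by rw [he p]; exact hb p⟩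

lemma DB.int (g : IPt → ℤ) : DB (fun p => (g p : ℝ)) :=
  ⟨1, one_pos, fun p => ⟨g p, by simp⟩⟩

lemma DB.rat (c : ℚ) : DB (fun _ => (c : ℝ)) := by
  refine ⟨c.den, c.pos, fun _ => ⟨c.num, ?_⟩⟩
  have h := Rat.mul_den_eq_num c
  have h2 : ((c * c.den : ℚ) : ℝ) = ((c.num : ℚ) : ℝ) := by rw [h]
  push_cast at h2
  rw [mul_comm]; exact h2

lemma DB.add {g h : IPt → ℝ} (hg : DB g) (hh : DB h) : DB (fun p => g p + h p) := by
  obtain ⟨D, hD, hb⟩ := hg
  obtain ⟨D', hD', hb'⟩ := hh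
  refine ⟨D * D', Nat.mul_pos hD hD', fun p => ?_⟩
  obtain ⟨z, hz⟩ := hb p
  obtain ⟨z', hz'⟩ := hb' p
  refine ⟨D' * z + D * z', ?_⟩
  push_cast
  rw [← hz, ← hz']; ring

lemma DB.mul {g h : IPt → ℝ} (hg : DB g) (hh : DB h) : DB (fun p => g p * h p) := by
  obtain ⟨D, hD, hb⟩ := hg
  obtain ⟨D', hD', hb'⟩ := hh
  refine ⟨D * D', Nat.mul_pos hD hD', fun p => ?_⟩
  obtain ⟨z, hz⟩ := hb p
  obtain ⟨z', hz'⟩ := hb' p
  refine ⟨z * z', ?_⟩
  push_cast
  rw [← hz, ← hz']; ring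

lemma DB.sum {ι : Type} (s : Finset ι) (g : ι → IPt → ℝ) (hg : ∀ i ∈ s, DB (g i)) :
    DB (fun p => ∑ i ∈ s, g i p) := by
  classical
  induction s using Finset.induction_on with
  | empty => exact (DB.int (fun _ => 0)).congr (fun p => by simp)
  | insert i s hi ih =>
    have h1 := (hg i (Finset.mem_insert_self i s)).add
      (ih (fun j hj => hg j (Finset.mem_insert_of_mem hj)))
    exact h1.congr (fun p => by rw [Finset.sum_insert hi])

lemma DB_q (n : ℕ) : DB (fun p => q (p.A : ℝ) (p.B : ℝ) n) := by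
  induction n using Nat.strong_induction_on with
  | _ n ih =>
    by_cases h0 : n = 0
    · subst h0
      exact (DB.int (fun _ => 1)).congr (fun p => by rw [q_zero]; simp)
    · by_cases h6 : n = 6
      · subst h6
        refine ((DB.rat (-1 / 7)).mul (DB.int (fun p => p.B))).congr (fun p => ?_)
        rw [q_six]; push_cast; ring
      · have h1 : ((n : ℝ) + 1) ≠ 0 := by positivity
        have h2 : ((n : ℝ) - 6) ≠ 0 := by
          intro h
          apply h6
          have : (n : ℝ) = 6 := by linarith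
          exact_mod_cast this
        have hs : DB (fun p => ((6 : ℤ) : ℝ) * ∑ i ∈ range (n - 1),
            q (p.A : ℝ) (p.B : ℝ) (i + 1) * q (p.A : ℝ) (p.B : ℝ) (n - 1 - i)
            + (((if n = 4 then 2 * p.A else 0 : ℤ)) : ℝ)) := by
          apply DB.add
          · apply (DB.int (fun _ => 6)).mul
            apply DB.sum
            intro i hi
            rw [mem_range] at hi
            exact (ih (i + 1) (by omega)).mul (ih (n - 1 - i) (by omega))
          · exact DB.int (fun p => if n = 4 then 2 * p.A else 0)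
        refine ((DB.rat (1 / (((n : ℚ) + 1) * ((n : ℚ) - 6)))).mul hs).congr (fun p => ?_)
        have h := q_rec (p.A : ℝ) (p.B : ℝ) n h0 h6
        have e : (((if n = 4 then 2 * p.A else 0 : ℤ)) : ℝ) =
            if n = 4 then 2 * (p.A : ℝ) else 0 := by
          split_ifs <;> simp
        rw [e]
        push_cast
        rw [← h]
        field_simp

lemma DB_f (n : ℕ) : DB (fun p => f (p.A : ℝ) (p.B : ℝ) (p.a : ℝ) (p.x : ℝ)
    (sp (p.x : ℝ) (p.y : ℝ) (p.a : ℝ)) n) := by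
  induction n using Nat.strong_induction_on with
  | _ n ih =>
    by_cases h0 : n = 0
    · subst h0
      exact (DB.int (fun _ => 1)).congr (fun p => by rw [f_zero]; simp)
    · by_cases h3 : n = 3
      · subst h3
        refine ((DB.rat (-1 / 6)).mul (DB.int (fun p => 2 * p.y - 3 * p.a * p.x + p.a ^ 3))).congr
          (fun p => ?_)
        rw [f_three, sp]; push_cast; ring
      · have h1 : (n : ℝ) ≠ 0 := by exact_mod_cast h0
        have h2 : ((n : ℝ) - 3) ≠ 0 := by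
          intro h
          apply h3
          have : (n : ℝ) = 3 := by linarith
          exact_mod_cast this
        have t1 : DB (fun p => ((-2 * p.a * ((n : ℤ) - 2) : ℤ) : ℝ) *
            f (p.A : ℝ) (p.B : ℝ) (p.a : ℝ) (p.x : ℝ) (sp (p.x : ℝ) (p.y : ℝ) (p.a : ℝ)) (n - 1)) :=
          (DB.int (fun p => -2 * p.a * ((n : ℤ) - 2))).mul (ih (n - 1) (by omega))
        have t2 : DB (fun p => ((p.x - p.a ^ 2 : ℤ) : ℝ) * (if n = 1 then 0 else
            f (p.A : ℝ) (p.B : ℝ) (p.a : ℝ) (p.x : ℝ)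
              (sp (p.x : ℝ) (p.y : ℝ) (p.a : ℝ)) (n - 2))) := by
          apply (DB.int (fun p => p.x - p.a ^ 2)).mul
          by_cases hn : n = 1
          · refine (DB.int (fun _ => 0)).congr (fun p => by rw [if_pos hn]; simp)
          · refine (ih (n - 2) (by omega)).congr (fun p => by rw [if_neg hn])
        have t3 : DB (fun p => ((2 : ℤ) : ℝ) * ∑ i ∈ range n, q (p.A : ℝ) (p.B : ℝ) (i + 1) *
            f (p.A : ℝ) (p.B : ℝ) (p.a : ℝ) (p.x : ℝ)
              (sp (p.x : ℝ) (p.y : ℝ) (p.a : ℝ)) (n - 1 - i)) := by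
          apply (DB.int (fun _ => 2)).mul
          apply DB.sum
          intro i hi
          rw [mem_range] at hi
          exact (DB_q (i + 1)).mul (ih (n - 1 - i) (by omega))
        refine ((DB.rat (1 / ((n : ℚ) * ((n : ℚ) - 3)))).mul ((t1.add t2).add t3)).congr
          (fun p => ?_)
        have h := f_rec (p.A : ℝ) (p.B : ℝ) (p.a : ℝ) (p.x : ℝ)
          (sp (p.x : ℝ) (p.y : ℝ) (p.a : ℝ)) n h0 h3
        push_cast
        have h5 : (-2 * (p.a : ℝ) * ((n : ℝ) - 2)) *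
            f (p.A : ℝ) (p.B : ℝ) (p.a : ℝ) (p.x : ℝ) (sp (p.x : ℝ) (p.y : ℝ) (p.a : ℝ)) (n - 1)
            + ((p.x : ℝ) - p.a ^ 2) * (if n = 1 then 0 else f (p.A : ℝ) (p.B : ℝ) (p.a : ℝ) (p.x : ℝ)
              (sp (p.x : ℝ) (p.y : ℝ) (p.a : ℝ)) (n - 2)) +
            2 * ∑ i ∈ range n, q (p.A : ℝ) (p.B : ℝ) (i + 1) *
            f (p.A : ℝ) (p.B : ℝ) (p.a : ℝ) (p.x : ℝ)
              (sp (p.x : ℝ) (p.y : ℝ) (p.a : ℝ)) (n - 1 - i) =
            (n : ℝ) * ((n : ℝ) - 3) * f (p.A : ℝ) (p.B : ℝ) (p.a : ℝ) (p.x : ℝ)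
              (sp (p.x : ℝ) (p.y : ℝ) (p.a : ℝ)) n := by
          rw [h]
        rw [h5]
        field_simp

/-- a finite family has a common denominator -/
lemma DB.common (N : ℕ) (G : ℕ → IPt → ℝ) (hG : ∀ n, DB (G n)) :
    ∃ D : ℕ, 0 < D ∧ ∀ p, ∀ n, n < N → ∃ z : ℤ, (D : ℝ) * G n p = z := by
  induction N with
  | zero => exact ⟨1, one_pos, fun p n hn => absurd hn (by omega)⟩
  | succ N ih =>
    obtain ⟨D, hD, hb⟩ := ih
    obtain ⟨D', hD', hb'⟩ := hG N
    refine ⟨D * D', Nat.mul_pos hD hD', fun p n hn => ?_⟩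
    rcases Nat.lt_succ_iff_lt_or_eq.mp hn with h | h
    · obtain ⟨z, hz⟩ := hb p n h
      refine ⟨D' * z, ?_⟩
      push_cast
      rw [← hz]; ring
    · subst h
      obtain ⟨z, hz⟩ := hb' p
      refine ⟨D * z, ?_⟩
      push_cast
      rw [← hz]; ring

end Pool.Agent.W273.HL
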