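import Pool.Agent.W273.HL.Bdd
import Pool.Agent.W273.HL.Den

/-!
The combinatorial core of the argument.
-/

set_option autoImplicit false

namespace Pool.Agent.W273.HL

open Finset

lemma sum_range_two_mul (φ : ℕ → ℝ) (n : ℕ) :
    ∑ i ∈ range (2 * n), φ i = ∑ k ∈ range n, (φ (2 * k) + φ (2 * k + 1)) := by
  induction n with
  | zero => simp
  | succ n ih =>
    rw [Finset.sum_range_succ, ← ih, show 2 * (n + 1) = 2 * n + 1 + 1 by ring,
      Finset.sum_range_succ, Finset.sum_range_succ]
    ring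

/-- the window equation -/
lemma window (A B a x s : ℝ) (m : ℕ) (h1 : f A B a x s (2 * m + 5) = 0)
    (h2 : f A B a x s (2 * m + 4) = -q A B (2 * m + 4) / (2 * m + 3))
    (h3 : f A B a x s (2 * m + 3) = 0) :
    ∑ j ∈ range m, q A B (2 * (m + 1 - j)) * f A B a x s (2 * j + 3) = 0 := by
  have h := R2 A B a x s (2 * m + 3)
  have e1 : 2 * m + 3 + 2 = 2 * m + 5 := by ring
  have e2 : 2 * m + 3 + 1 = 2 * m + 4 := by ring
  rw [e1, e2, h1, h2, h3] at h
  have hs : ∑ i ∈ range (2 * m + 5), q A B (i + 1) * f A B a x s (2 * m + 4 - i) =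
      (∑ j ∈ range m, q A B (2 * (m + 1 - j)) * f A B a x s (2 * j + 3))
        - a * q A B (2 * m + 4) := by
    rw [show 2 * m + 5 = 2 * (m + 2) + 1 by ring, Finset.sum_range_succ, sum_range_two_mul]
    have o1 : q A B (2 * (m + 2) + 1) = 0 := q_odd A B _ ⟨m + 2, by ring⟩
    rw [o1, zero_mul, add_zero]
    have hh : ∀ k ∈ range (m + 2), (q A B (2 * k + 1) * f A B a x s (2 * m + 4 - 2 * k) +
        q A B (2 * k + 1 + 1) * f A B a x s (2 * m + 4 - (2 * k + 1))) =
        q A B (2 * k + 2) * f A B a x s (2 * m + 3 - 2 * k) := by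
      intro k _
      rw [q_odd A B (2 * k + 1) ⟨k, by ring⟩, zero_mul, zero_add]
      have : 2 * m + 4 - (2 * k + 1) = 2 * m + 3 - 2 * k := by omega
      rw [this]
    rw [Finset.sum_congr rfl hh, Finset.sum_range_succ, Finset.sum_range_succ']
    have e3 : 2 * (m + 1) + 2 = 2 * m + 4 := by ring
    have e4 : 2 * m + 3 - 2 * (m + 1) = 1 := by omega
    have e5 : q A B (2 * 0 + 2) = 0 := q_two A B
    rw [e3, e4, e5, f_one, zero_mul, add_zero]
    rw [← Finset.sum_range_reflect (fun j => q A B (2 * (m + 1 - j)) * f A B a x s (2 * j + 3)) m]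
    have hh2 : ∀ k ∈ range m, q A B (2 * (k + 1) + 2) * f A B a x s (2 * m + 3 - 2 * (k + 1)) =
        q A B (2 * (m + 1 - (m - 1 - k))) * f A B a x s (2 * (m - 1 - k) + 3) := by
      intro k hk
      rw [mem_range] at hk
      have a1 : 2 * (k + 1) + 2 = 2 * (m + 1 - (m - 1 - k)) := by omega
      have a2 : 2 * m + 3 - 2 * (k + 1) = 2 * (m - 1 - k) + 3 := by omega
      rw [a1, a2]
    rw [Finset.sum_congr rfl hh2]
    ring
  rw [hs] at h
  have k1 : ((2 : ℝ) * m + 3) ≠ 0 := by positivity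
  have k2 : 2 * a * ((2 : ℝ) * m + 3) * (-q A B (2 * m + 4) / (2 * m + 3)) =
      -2 * a * q A B (2 * m + 4) := by
    field_simp
  push_cast at h
  rw [k2] at h
  linarith

/-- the dominance lemma -/
lemma dominance (m : ℕ) (c G : ℕ → ℝ) (D : ℕ) (hD : 0 < D) (Q τ : ℝ) (hQ : 0 ≤ Q) (hτ0 : 0 ≤ τ)
    (hτ1 : τ ≤ 1) (hG : ∀ j, j < m → G j ≠ 0) (hr : ∀ j, j + 1 < m → |G (j + 1)| ≤ τ * |G j|)
    (hc : ∀ j, j < m → |c j| ≤ Q) (hi : ∀ j, j < m → ∃ z : ℤ, (D : ℝ) * c j = z)
    (hs : m * Q * τ * D < 1) (h0 : ∑ j ∈ range m, c j * G j = 0) : ∀ j, j < m → c j = 0 := by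
  have hmono : ∀ i j, j < i → i < m → |G i| ≤ τ * |G j| := by
    intro i j hji
    induction i with
    | zero => omega
    | succ i ih =>
      intro him
      rcases Nat.lt_succ_iff_lt_or_eq.mp hji with h | h
      · have h1 := ih h (by omega)
        have h2 := hr i him
        have h3 : τ * |G i| ≤ 1 * |G i| := mul_le_mul_of_nonneg_right hτ1 (abs_nonneg _)
        linarith
      · subst h; exact hr j him
  intro j
  induction j using Nat.strong_induction_on with
  | _ j ih =>
    intro hj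
    have hsplit := Finset.add_sum_erase (range m) (fun j => c j * G j) (mem_range.mpr hj)
    rw [h0] at hsplit
    have hb : |∑ i ∈ (range m).erase j, c i * G i| ≤ m * (Q * (τ * |G j|)) := by
      calc |∑ i ∈ (range m).erase j, c i * G i| ≤ ∑ i ∈ (range m).erase j, |c i * G i| :=
            Finset.abs_sum_le_sum_abs _ _
        _ ≤ ∑ _i ∈ (range m).erase j, Q * (τ * |G j|) := by
            apply Finset.sum_le_sum
            intro i hi'
            rw [mem_erase, mem_range] at hi'
            rcases Nat.lt_or_gt_of_ne hi'.1 with h | h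
            · rw [ih i h hi'.2, zero_mul, abs_zero]
              positivity
            · rw [abs_mul]
              exact mul_le_mul (hc i hi'.2) (hmono i j h hi'.2) (abs_nonneg _) hQ
        _ = (((range m).erase j).card : ℝ) * (Q * (τ * |G j|)) := by
            rw [Finset.sum_const, nsmul_eq_mul]
        _ ≤ m * (Q * (τ * |G j|)) := by
            apply mul_le_mul_of_nonneg_right _ (by positivity)
            have : ((range m).erase j).card ≤ m := by
              calc ((range m).erase j).card ≤ (range m).card := Finset.card_erase_le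
                _ = m := card_range m
            exact_mod_cast this
    have h1 : |c j * G j| ≤ m * (Q * (τ * |G j|)) := by
      have : c j * G j = -∑ i ∈ (range m).erase j, c i * G i := by linarith
      rw [this, abs_neg]; exact hb
    rw [abs_mul] at h1
    have hGj : 0 < |G j| := abs_pos.mpr (hG j hj)
    have h2 : |c j| ≤ m * Q * τ := by
      have : |c j| * |G j| ≤ (m * Q * τ) * |G j| := by nlinarith
      exact le_of_mul_le_mul_right this hGj
    obtain ⟨z, hz⟩ := hi j hj
    have hDr : (0 : ℝ) < D := by exact_mod_cast hD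
    have h3 : |(z : ℝ)| < 1 := by
      rw [← hz, abs_mul, abs_of_pos hDr]
      calc (D : ℝ) * |c j| ≤ D * (m * Q * τ) := by gcongr
        _ = m * Q * τ * D := by ring
        _ < 1 := hs
    have h4 : z = 0 := by
      have : |z| < 1 := by exact_mod_cast h3
      exact Int.abs_lt_one_iff.mp this
    rw [h4] at hz
    push_cast at hz
    rcases mul_eq_zero.mp hz with h | h
    · exact absurd h hDr.ne'
    · exact h

/-- an almost vanishing number with bounded denominator vanishes -/
lemma zero_of_small (D : ℕ) (hD : 0 < D) (c : ℝ) (hi : ∃ z : ℤ, (D : ℝ) * c = z)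
    (hc : |c| < 1 / D) : c = 0 := by
  obtain ⟨z, hz⟩ := hi
  have hDr : (0 : ℝ) < D := by exact_mod_cast hD
  have h3 : |(z : ℝ)| < 1 := by
    rw [← hz, abs_mul, abs_of_pos hDr]
    calc (D : ℝ) * |c| < D * (1 / D) := by gcongr
      _ = 1 := by field_simp
  have h4 : z = 0 := by
    have : |z| < 1 := by exact_mod_cast h3
    exact Int.abs_lt_one_iff.mp this
  rw [h4] at hz
  push_cast at hz
  rcases mul_eq_zero.mp hz with h | h
  · exact absurd h hDr.ne'
  · exact h

/-- the algebraic core -/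
lemma core_alg (N : ℕ) (hN : 2 ≤ N) (D : ℕ) (hD : 0 < D) (A B a x s w ρ Q : ℝ)
    (hw : 0 ≤ w) (hρ : |ρ| ≤ 1) (hQ : 0 ≤ Q)
    (hint : ∀ n, n < N + 8 → ∃ z : ℤ, (D : ℝ) * (f A B a x s n + q A B n / ((n : ℝ) - 1)) = z)
    (hqint : ∀ n, n < N + 8 → ∃ z : ℤ, (D : ℝ) * q A B n = z)
    (hq : ∀ n, n < N + 8 → |q A B n| ≤ Q)
    (hest : ∀ J, 1 ≤ J → J < N + 7 →
      |f A B a x s (J + 1) + q A B (J + 1) / J + w * ρ ^ J / (J.factorial : ℝ)| ≤ 1 / (8 * D))
    (hN' : w * |ρ| ^ N ≤ 1 / (8 * D)) (hsmall : N * Q * (2 * ρ ^ 2) * D < 1)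
    (hρ2 : 2 * ρ ^ 2 ≤ 1) :
    (A = 0 ∧ B = 0) ∨ (f A B a x s 3 = 0 ∧ w * ρ ^ 2 ≤ 1 / (4 * D)) := by
  have hDr : (0 : ℝ) < D := by exact_mod_cast hD
  set F := f A B a x s with hF
  set δ : ℝ := 1 / (8 * D) with hδ
  have hδ0 : 0 < δ := by positivity
  have hδD : 8 * δ = 1 / D := by rw [hδ]; field_simp
  set u : ℕ → ℝ := fun J => w * |ρ| ^ J / (J.factorial : ℝ) with hu
  have hu0 : ∀ J, 0 ≤ u J := fun J => by rw [hu]; positivity
  have hua : ∀ J, |w * ρ ^ J / (J.factorial : ℝ)| = u J := by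
    intro J
    rw [hu, abs_div, abs_mul, abs_pow, abs_of_nonneg hw, Nat.abs_cast]
  have hus : ∀ J, u (J + 1) ≤ u J * |ρ| := by
    intro J
    rw [hu]
    simp only
    have h1 : (0 : ℝ) < (J.factorial : ℝ) := by exact_mod_cast Nat.factorial_pos J
    have h2 : ((J.factorial : ℕ) : ℝ) ≤ ((J + 1).factorial : ℝ) := by
      exact_mod_cast Nat.factorial_le (Nat.le_succ J)
    calc w * |ρ| ^ (J + 1) / ((J + 1).factorial : ℝ) ≤ w * |ρ| ^ (J + 1) / (J.factorial : ℝ) := by
          gcongr
      _ = w * |ρ| ^ J / (J.factorial : ℝ) * |ρ| := by rw [pow_succ]; ring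
  have hmono1 : ∀ J, u J ≤ δ → u (J + 1) ≤ δ := by
    intro J h
    have h1 := hus J
    have h2 : u J * |ρ| ≤ u J * 1 := mul_le_mul_of_nonneg_left hρ (hu0 J)
    linarith
  have hmono : ∀ J K, J ≤ K → u J ≤ δ → u K ≤ δ := by
    intro J K hJK
    induction K, hJK using Nat.le_induction with
    | base => exact id
    | succ K _ ih => intro h; exact hmono1 K (ih h)
  -- small implies equality
  have hT : ∀ J, 1 ≤ J → J < N + 7 → u J ≤ δ → F (J + 1) + q A B (J + 1) / J = 0 := by
    intro J h1 h2 h3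
    apply zero_of_small D hD
    · have := hint (J + 1) (by omega)
      push_cast at this
      simpa using this
    · have h4 := hest J h1 h2
      have h5 : |F (J + 1) + q A B (J + 1) / J| ≤ 2 * δ := by
        have : F (J + 1) + q A B (J + 1) / J =
          (F (J + 1) + q A B (J + 1) / J + w * ρ ^ J / (J.factorial : ℝ)) -
            w * ρ ^ J / (J.factorial : ℝ) := by ring
        rw [this]
        refine (abs_sub _ _).trans ?_
        rw [hua]
        linarith
      rw [← hδD]
      linarith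
  -- not small implies at least 1/D
  have hNT : ∀ J, 1 ≤ J → J < N + 7 → ¬ u J ≤ δ → 8 * δ ≤ |F (J + 1) + q A B (J + 1) / J| := by
    intro J h1 h2 h3
    by_contra h4
    push Not at h4
    apply h3
    have h5 : F (J + 1) + q A B (J + 1) / J = 0 := by
      apply zero_of_small D hD
      · have := hint (J + 1) (by omega)
        push_cast at this
        simpa using this
      · rw [← hδD]; exact h4
    have h6 := hest J h1 h2
    rw [h5, zero_add, hua] at h6
    exact h6
  have hex : ∃ J, 2 ≤ J ∧ u J ≤ δ := by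
    refine ⟨N, hN, ?_⟩
    rw [hu]
    simp only
    calc w * |ρ| ^ N / (N.factorial : ℝ) ≤ w * |ρ| ^ N / 1 := by
          gcongr
          exact_mod_cast Nat.succ_le_of_lt (Nat.factorial_pos N)
      _ = w * |ρ| ^ N := by ring
      _ ≤ δ := hN'
  classical
  set J0 := Nat.find hex with hJ0
  obtain ⟨hJ2, hJs⟩ : 2 ≤ J0 ∧ u J0 ≤ δ := Nat.find_spec hex
  have hJmin : ∀ J, 2 ≤ J → J < J0 → ¬ u J ≤ δ := fun J h2 hJ h => Nat.find_min hex hJ ⟨h2, h⟩
  have hJN : J0 ≤ N := by
    apply Nat.find_min' hex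
    refine ⟨hN, ?_⟩
    rw [hu]
    simp only
    calc w * |ρ| ^ N / (N.factorial : ℝ) ≤ w * |ρ| ^ N / 1 := by
          gcongr
          exact_mod_cast Nat.succ_le_of_lt (Nat.factorial_pos N)
      _ = w * |ρ| ^ N := by ring
      _ ≤ δ := hN'
  have hJT : ∀ J, J0 ≤ J → J < N + 7 → F (J + 1) + q A B (J + 1) / J = 0 :=
    fun J h1 h2 => hT J (by omega) h2 (hmono J0 J h1 hJs)
  rcases Nat.eq_or_lt_of_le hJ2 with h2 | h3
  · -- J0 = 2
    right
    constructor
    · have := hJT 2 (by omega) (by omega)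
      norm_num [q_three] at this
      exact this
    · rw [← h2] at hJs
      rw [hu] at hJs
      simp only [Nat.factorial] at hJs
      norm_num at hJs
      have : (1 : ℝ) / (4 * D) = 2 * δ := by rw [hδ]; field_simp; norm_num
      rw [this]
      linarith
  · left
    obtain ⟨m, hm1, hm2, hm3⟩ : ∃ m, 1 ≤ m ∧ 2 * m < J0 ∧ J0 ≤ 2 * m + 2 :=
      ⟨(J0 - 1) / 2, by omega, by omega, by omega⟩
    have hF0 : ∀ k, J0 ≤ 2 * k + 2 → 2 * k + 2 < N + 7 → F (2 * k + 3) = 0 := by
      intro k h4 h5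
      have := hJT (2 * k + 2) h4 h5
      rw [q_odd A B (2 * k + 2 + 1) ⟨k + 1, by ring⟩, zero_div, add_zero] at this
      exact this
    have hF1 : ∀ k, J0 ≤ 2 * k + 3 → 2 * k + 3 < N + 7 →
        F (2 * k + 4) = -q A B (2 * k + 4) / (2 * k + 3) := by
      intro k h4 h5
      have := hJT (2 * k + 3) h4 h5
      push_cast at this
      have e : 2 * k + 3 + 1 = 2 * k + 4 := by ring
      rw [e] at this
      rw [neg_div]
      linarith
    have w1 := window A B a x s m (hF0 (m + 1) (by omega) (by omega))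
      (hF1 m (by omega) (by omega)) (hF0 m (by omega) (by omega))
    have w2 := window A B a x s (m + 1) (hF0 (m + 2) (by omega) (by omega))
      (by have := hF1 (m + 1) (by omega) (by omega)
          push_cast at this ⊢
          exact this) (hF0 (m + 1) (by omega) (by omega))
    rw [Finset.sum_range_succ, ← hF, hF0 m (by omega) (by omega), mul_zero, add_zero] at w2
    rw [← hF] at w1
    have hG1 : ∀ j, j < m → 8 * δ ≤ |F (2 * j + 3)| := by
      intro j hj
      have := hNT (2 * j + 2) (by omega) (by omega) (hJmin _ (by omega) (by omega))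
      rw [q_odd A B (2 * j + 2 + 1) ⟨j + 1, by ring⟩, zero_div, add_zero] at this
      exact this
    have hG : ∀ j, j < m → F (2 * j + 3) ≠ 0 := by
      intro j hj h
      have := hG1 j hj
      rw [h, abs_zero] at this
      linarith
    have hE : ∀ j, j < m → |F (2 * j + 3) + w * ρ ^ (2 * j + 2) / ((2 * j + 2).factorial : ℝ)| ≤ δ := by
      intro j hj
      have := hest (2 * j + 2) (by omega) (by omega)
      rw [q_odd A B (2 * j + 2 + 1) ⟨j + 1, by ring⟩, zero_div, add_zero] at this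
      exact this
    have hr : ∀ j, j + 1 < m → |F (2 * (j + 1) + 3)| ≤ (2 * ρ ^ 2) * |F (2 * j + 3)| := by
      intro j hj
      have a1 := hE j (by omega)
      have a2 := hE (j + 1) hj
      have b1 := hG1 j (by omega)
      have b2 := hG1 (j + 1) hj
      have c1 : u (2 * j + 2) ≤ |F (2 * j + 3)| + δ := by
        rw [← hua]
        have : w * ρ ^ (2 * j + 2) / ((2 * j + 2).factorial : ℝ) =
          (F (2 * j + 3) + w * ρ ^ (2 * j + 2) / ((2 * j + 2).factorial : ℝ)) - F (2 * j + 3) := by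
          ring
        rw [this]
        refine (abs_sub _ _).trans ?_
        linarith
      have c2 : |F (2 * (j + 1) + 3)| ≤ u (2 * (j + 1) + 2) + δ := by
        rw [← hua]
        have : F (2 * (j + 1) + 3) = (F (2 * (j + 1) + 3) + w * ρ ^ (2 * (j + 1) + 2) /
          ((2 * (j + 1) + 2).factorial : ℝ)) - w * ρ ^ (2 * (j + 1) + 2) /
          ((2 * (j + 1) + 2).factorial : ℝ) := by ring
        calc |F (2 * (j + 1) + 3)| = |(F (2 * (j + 1) + 3) + w * ρ ^ (2 * (j + 1) + 2) /
          ((2 * (j + 1) + 2).factorial : ℝ)) - w * ρ ^ (2 * (j + 1) + 2) /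
          ((2 * (j + 1) + 2).factorial : ℝ)| := by rw [← this]
          _ ≤ |(F (2 * (j + 1) + 3) + w * ρ ^ (2 * (j + 1) + 2) /
          ((2 * (j + 1) + 2).factorial : ℝ))| + |w * ρ ^ (2 * (j + 1) + 2) /
          ((2 * (j + 1) + 2).factorial : ℝ)| := abs_sub _ _
          _ ≤ _ := by linarith
      have c3 : u (2 * (j + 1) + 2) ≤ u (2 * j + 2) * ρ ^ 2 := by
        have d1 := hus (2 * j + 2)
        have d2 := hus (2 * j + 3)
        have e1 : 2 * (j + 1) + 2 = 2 * j + 3 + 1 := by ring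
        have e2 : 2 * j + 2 + 1 = 2 * j + 3 := by ring
        rw [e2] at d1
        rw [e1, ← sq_abs]
        have := mul_le_mul_of_nonneg_right d1 (abs_nonneg ρ)
        calc u (2 * j + 3 + 1) ≤ u (2 * j + 3) * |ρ| := d2
          _ ≤ u (2 * j + 2) * |ρ| * |ρ| := this
          _ = u (2 * j + 2) * |ρ| ^ 2 := by ring
      have c4 : u (2 * j + 2) * ρ ^ 2 ≤ (9 / 8 * |F (2 * j + 3)|) * ρ ^ 2 := by
        apply mul_le_mul_of_nonneg_right _ (sq_nonneg ρ)
        linarith
      have c5 : 0 ≤ |F (2 * j + 3)| * ρ ^ 2 := by positivity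
      linarith
    have hmN : (m : ℝ) * Q * (2 * ρ ^ 2) * D < 1 := by
      refine lt_of_le_of_lt ?_ hsmall
      have : (m : ℝ) ≤ N := by exact_mod_cast (by omega : m ≤ N)
      gcongr
    have d1 := dominance m (fun j => q A B (2 * (m + 1 - j))) (fun j => F (2 * j + 3)) D hD Q
      (2 * ρ ^ 2) hQ (by positivity) hρ2 hG hr (fun j hj => hq _ (by omega))
      (fun j hj => hqint _ (by omega)) hmN w1 (m - 1) (by omega)
    have d2 := dominance m (fun j => q A B (2 * (m + 1 + 1 - j))) (fun j => F (2 * j + 3)) D hD Q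
      (2 * ρ ^ 2) hQ (by positivity) hρ2 hG hr (fun j hj => hq _ (by omega))
      (fun j hj => hqint _ (by omega)) hmN w2 (m - 1) (by omega)
    have e1 : 2 * (m + 1 - (m - 1)) = 4 := by omega
    have e2 : 2 * (m + 1 + 1 - (m - 1)) = 6 := by omega
    simp only [e1, e2, q_four, q_six] at d1 d2
    constructor <;> linarith

end Pool.Agent.W273.HL
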