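import Pool.Agent.W273.HL.Main

/-!
The Hall–Lang bound for integral points whose abscissa is close to a rational square.
-/

set_option autoImplicit false

namespace Pool.Agent.W273.HL

open Finset

/-- the case of integral squares -/
theorem core1 (ε : ℝ) (hε : 0 < ε) (hε1 : ε ≤ 1) : ∃ K : ℝ, ∃ M : ℕ, 1 ≤ K ∧ 1 ≤ M ∧
    ∀ (A B a x y : ℤ) (w H : ℝ),
    4 * A ^ 3 + 27 * B ^ 2 ≠ 0 → y ^ 2 = x ^ 3 + A * x + B → 1 ≤ w → w ^ 2 = x → 0 ≤ y →
    1 ≤ H → |(A : ℝ)| ≤ H → |(B : ℝ)| ≤ H → |w - a| ≤ w ^ (-ε) → w ≤ K * H ^ M := by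
  set N : ℕ := max 2 ⌈2 / ε⌉₊ with hN
  have hN2 : 2 ≤ N := le_max_left _ _
  have hNε : 2 ≤ N * ε := by
    have h1 : 2 / ε ≤ (⌈2 / ε⌉₊ : ℝ) := Nat.le_ceil _
    have h2 : ((⌈2 / ε⌉₊ : ℕ) : ℝ) ≤ N := by exact_mod_cast le_max_right 2 ⌈2 / ε⌉₊
    have h3 : 2 / ε ≤ N := h1.trans h2
    rw [div_le_iff₀ hε] at h3
    exact h3
  obtain ⟨X, e, hX, hcore⟩ := core0 N hN2
  set M : ℕ := max 2 ⌈(e : ℝ) / ε⌉₊ with hM
  have hMε : (e : ℝ) ≤ M * ε := by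
    have h1 : (e : ℝ) / ε ≤ (⌈(e : ℝ) / ε⌉₊ : ℝ) := Nat.le_ceil _
    have h2 : ((⌈(e : ℝ) / ε⌉₊ : ℕ) : ℝ) ≤ M := by exact_mod_cast le_max_right 2 ⌈(e : ℝ) / ε⌉₊
    have h3 : (e : ℝ) / ε ≤ M := h1.trans h2
    rw [div_le_iff₀ hε] at h3
    exact h3
  have hXε : 1 ≤ X ^ (1 / ε) := Real.one_le_rpow hX (by positivity)
  refine ⟨9216 * X ^ (1 / ε), M, by nlinarith, le_trans (by norm_num) (le_max_left _ _), ?_⟩
  intro A B a x y w H hdisc hxy hw hwx hy0 hH hA hB h1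
  by_contra hcon
  push Not at hcon
  have hw0 : 0 < w := by linarith
  have hH0 : 0 < H := by linarith
  have hHM : 1 ≤ H ^ M := one_le_pow₀ hH
  have hθ : X * H ^ e * w ^ (-ε) ≤ 1 := by
    have e1 : X ^ (1 / ε) * H ^ M ≤ w := by
      have : X ^ (1 / ε) * H ^ M ≤ 9216 * X ^ (1 / ε) * H ^ M := by
        have : 0 ≤ X ^ (1 / ε) * H ^ M := by positivity
        nlinarith
      linarith
    have e2 : (X ^ (1 / ε) * H ^ M) ^ ε ≤ w ^ ε := Real.rpow_le_rpow (by positivity) e1 hε.le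
    have e3 : (X ^ (1 / ε) * H ^ M) ^ ε = X * H ^ ((M : ℝ) * ε) := by
      rw [Real.mul_rpow (by positivity) (by positivity), ← Real.rpow_mul (by positivity),
        ← Real.rpow_natCast H M, ← Real.rpow_mul hH0.le]
      congr 1
      rw [one_div, inv_mul_cancel₀ hε.ne', Real.rpow_one]
    have e4 : H ^ e ≤ H ^ ((M : ℝ) * ε) := by
      rw [← Real.rpow_natCast H e]
      exact Real.rpow_le_rpow_of_exponent_le hH hMε
    have e5 : X * H ^ e ≤ w ^ ε := by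
      calc X * H ^ e ≤ X * H ^ ((M : ℝ) * ε) := by gcongr
        _ = (X ^ (1 / ε) * H ^ M) ^ ε := e3.symm
        _ ≤ w ^ ε := e2
    rw [Real.rpow_neg hw0.le]
    have e6 : 0 < w ^ ε := Real.rpow_pos_of_pos hw0 ε
    calc X * H ^ e * (w ^ ε)⁻¹ ≤ w ^ ε * (w ^ ε)⁻¹ := by gcongr
      _ = 1 := mul_inv_cancel₀ e6.ne'
  have hwinv : 1 / w ≤ w ^ (-ε) := by
    rw [one_div, ← Real.rpow_neg_one]
    exact Real.rpow_le_rpow_of_exponent_le hw (by linarith)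
  have hwN : w * |w - a| ^ N ≤ w ^ (-ε) := by
    calc w * |w - a| ^ N ≤ w * (w ^ (-ε)) ^ N := by gcongr
      _ = w ^ (1 + (-ε) * N) := by
        rw [← Real.rpow_natCast (w ^ (-ε)) N, ← Real.rpow_mul hw0.le, Real.rpow_add hw0,
          Real.rpow_one]
      _ ≤ w ^ (-ε) := by
        apply Real.rpow_le_rpow_of_exponent_le hw
        nlinarith
  have hfin := hcore A B a x y w H (w ^ (-ε)) hdisc hxy hw hwx hy0 hH hA hB h1 hwinv hwN hθ
  have : 9216 * H ^ 2 ≤ 9216 * X ^ (1 / ε) * H ^ M := by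
    have e1 : H ^ 2 ≤ H ^ M := pow_le_pow_right₀ hH (le_max_left _ _)
    have e2 : 9216 * H ^ M ≤ 9216 * X ^ (1 / ε) * H ^ M := by nlinarith
    linarith
  linarith

/-- negative abscissas -/
lemma neg_case (A B x y : ℤ) (H : ℝ) (hxy : y ^ 2 = x ^ 3 + A * x + B) (hx : x ≤ 0)
    (hH : 1 ≤ H) (hA : |(A : ℝ)| ≤ H) (hB : |(B : ℝ)| ≤ H) :
    |(x : ℝ)| ≤ 3 * H ^ 2 ∧ |(y : ℝ)| ≤ 3 * H ^ 2 := by
  have hxr : (x : ℝ) ≤ 0 := by exact_mod_cast hx
  set z : ℝ := -x with hz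
  have hz0 : 0 ≤ z := by linarith
  have hxz : (x : ℝ) = -z := by rw [hz]; ring
  have hyr : (y : ℝ) ^ 2 = -z ^ 3 + (-(A : ℝ) * z) + B := by
    have : (y : ℝ) ^ 2 = (x : ℝ) ^ 3 + A * x + B := by exact_mod_cast hxy
    rw [this, hxz]; ring
  have h1 : -(A : ℝ) * z ≤ H * z := by
    apply mul_le_mul_of_nonneg_right _ hz0
    exact (neg_le_abs _).trans hA
  have h2 : (B : ℝ) ≤ H := (le_abs_self _).trans hB
  have h3 : z ≤ 2 * H := by
    by_contra h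
    push Not at h
    have h4 : 1 < z := by linarith
    have h5 : z ^ 3 ≤ H * z + H := by nlinarith [sq_nonneg (y : ℝ)]
    have h6 : z ^ 3 > (2 * H) * z := by
      have : z ^ 2 > 2 * H := by nlinarith
      nlinarith
    nlinarith
  have hy2 : (y : ℝ) ^ 2 ≤ 3 * H ^ 2 := by
    have : 0 ≤ z ^ 3 := by positivity
    nlinarith
  constructor
  · rw [abs_of_nonpos hxr]
    nlinarith
  · have : |(y : ℝ)| ≤ (y : ℝ) ^ 2 := by
      rcases eq_or_ne y 0 with h | h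
      · rw [h]; simp
      · have h1 : (1 : ℝ) ≤ |(y : ℝ)| := by exact_mod_cast Int.one_le_abs h
        rw [← sq_abs]; nlinarith
    linarith

lemma height_ge_one (A B : ℤ) (hdisc : 4 * A ^ 3 + 27 * B ^ 2 ≠ 0) :
    1 ≤ max |(A : ℝ)| |(B : ℝ)| := by
  by_cases hA0 : A = 0
  · have hB0 : B ≠ 0 := by
      intro h
      apply hdisc
      rw [hA0, h]; ring
    have : (1 : ℝ) ≤ |(B : ℝ)| := by exact_mod_cast Int.one_le_abs hB0
    exact this.trans (le_max_right _ _)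
  · have : (1 : ℝ) ≤ |(A : ℝ)| := by exact_mod_cast Int.one_le_abs hA0
    exact this.trans (le_max_left _ _)

lemma abs_le_sq (y : ℤ) : |(y : ℝ)| ≤ (y : ℝ) ^ 2 := by
  rcases eq_or_ne y 0 with h | h
  · rw [h]; simp
  · have h1 : (1 : ℝ) ≤ |(y : ℝ)| := by exact_mod_cast Int.one_le_abs h
    rw [← sq_abs]; nlinarith

/-- main theorem, with the dependence on the denominator `b` -/
theorem main1 (ε : ℝ) (hε : 0 < ε) : ∃ K M : ℝ, 0 < K ∧ 0 < M ∧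
    ∀ A B x y a b : ℤ, 4 * A ^ 3 + 27 * B ^ 2 ≠ 0 → y ^ 2 = x ^ 3 + A * x + B → 1 ≤ b →
      |(b : ℝ) ^ 2 * x - (a : ℝ) ^ 2| ≤ |(b : ℝ) ^ 2 * x| ^ (1 / 2 - ε) →
      max |(x : ℝ)| |(y : ℝ)| ≤ K * (b * max |(A : ℝ)| |(B : ℝ)|) ^ M := by
  set ε' : ℝ := min (2 * ε) 1 with hε'
  have hε0 : 0 < ε' := lt_min (by linarith) one_pos
  obtain ⟨K, M, hK, hM, hcore⟩ := core1 ε' hε0 (min_le_right _ _)
  have hMr : (1 : ℝ) ≤ M := by exact_mod_cast hM
  refine ⟨3 * K ^ 6, 36 * M + 1, by positivity, by positivity, ?_⟩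
  intro A B x y a b hdisc hxy hb hab
  set H : ℝ := max |(A : ℝ)| |(B : ℝ)| with hH
  have hA : |(A : ℝ)| ≤ H := le_max_left _ _
  have hB : |(B : ℝ)| ≤ H := le_max_right _ _
  have hH1 : 1 ≤ H := height_ge_one A B hdisc
  have hH0 : 0 ≤ H := by linarith
  have hb1 : (1 : ℝ) ≤ b := by exact_mod_cast hb
  have hb0 : (0 : ℝ) < b := by linarith
  have hbH : 1 ≤ b * H := by nlinarith
  have hHbH : H ≤ b * H := le_mul_of_one_le_left hH0 hb1
  have hK6 : 1 ≤ K ^ 6 := one_le_pow₀ hK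
  have hpw : ∀ n : ℕ, (n : ℝ) ≤ 36 * M + 1 → ∀ C : ℝ, 0 ≤ C → C ≤ 3 * K ^ 6 →
      C * (b * H) ^ n ≤ 3 * K ^ 6 * (b * H) ^ (36 * (M : ℝ) + 1) := by
    intro n hn C hC0 hC
    have : (b * H) ^ n ≤ (b * H) ^ (36 * (M : ℝ) + 1) := by
      rw [← Real.rpow_natCast]
      exact Real.rpow_le_rpow_of_exponent_le hbH hn
    gcongr
  rcases le_or_gt x 0 with hx | hx
  · obtain ⟨h1, h2⟩ := neg_case A B x y H hxy hx hH1 hA hB
    have h3 : 3 * H ^ 2 ≤ 3 * (b * H) ^ 2 := by gcongr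
    refine (max_le h1 h2).trans (h3.trans (hpw 2 ?_ 3 (by norm_num) (by linarith)))
    push_cast; linarith
  · have hx1 : (1 : ℝ) ≤ x := by exact_mod_cast hx
    have hx0 : (0 : ℝ) < x := by linarith
    set w : ℝ := b * Real.sqrt x with hw
    have hsx : 1 ≤ Real.sqrt x := Real.one_le_sqrt.mpr hx1
    have hw1 : 1 ≤ w := by nlinarith
    have hw0 : 0 < w := by linarith
    have hw2 : w ^ 2 = ((b ^ 2 * x : ℤ) : ℝ) := by
      rw [hw, mul_pow, Real.sq_sqrt hx0.le]; push_cast; ring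
    have hclose : |w - ((|a| : ℤ) : ℝ)| ≤ w ^ (-ε') := by
      have e1 : |(b : ℝ) ^ 2 * x| = w ^ (2 : ℝ) := by
        rw [abs_of_pos (by positivity)]
        have : w ^ (2 : ℝ) = w ^ 2 := by
          rw [← Real.rpow_natCast]; norm_num
        rw [this, hw2]; push_cast; ring
      rw [e1, ← Real.rpow_mul hw0.le] at hab
      have e2 : (b : ℝ) ^ 2 * x - (a : ℝ) ^ 2 = (w - |(a : ℝ)|) * (w + |(a : ℝ)|) := by
        have : (b : ℝ) ^ 2 * x = w ^ 2 := by rw [hw2]; push_cast; ring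
        rw [this]
        have h2 : (a : ℝ) ^ 2 = |(a : ℝ)| ^ 2 := (sq_abs _).symm
        rw [h2]; ring
      rw [e2, abs_mul, abs_of_pos (by positivity : 0 < w + |(a : ℝ)|)] at hab
      have e3 : abs (w - |(a : ℝ)|) * w ≤ w ^ (2 * (1 / 2 - ε)) := by
        refine le_trans ?_ hab
        have : 0 ≤ |(a : ℝ)| := abs_nonneg _
        gcongr
        linarith
      have e4 : w ^ (2 * (1 / 2 - ε)) = w ^ (-(2 * ε)) * w := by
        rw [show 2 * (1 / 2 - ε) = -(2 * ε) + 1 by ring, Real.rpow_add hw0, Real.rpow_one]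
      rw [e4] at e3
      have e5 := le_of_mul_le_mul_right e3 hw0
      push_cast
      refine e5.trans ?_
      apply Real.rpow_le_rpow_of_exponent_le hw1
      have := min_le_left (2 * ε) 1
      linarith
    have hres := hcore (b ^ 4 * A) (b ^ 6 * B) |a| (b ^ 2 * x) (b ^ 3 * |y|) w ((b : ℝ) ^ 6 * H)
      (by
        have e1 : 4 * (b ^ 4 * A) ^ 3 + 27 * (b ^ 6 * B) ^ 2 =
            b ^ 12 * (4 * A ^ 3 + 27 * B ^ 2) := by ring
        rw [e1]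
        exact mul_ne_zero (pow_ne_zero _ (by omega)) hdisc)
      (by
        rw [mul_pow, sq_abs, hxy]; ring)
      hw1 hw2 (by positivity)
      (by
        have : 1 ≤ (b : ℝ) ^ 6 := one_le_pow₀ hb1
        nlinarith)
      (by
        push_cast
        rw [abs_mul, abs_of_pos (by positivity : (0 : ℝ) < (b : ℝ) ^ 4)]
        have : (b : ℝ) ^ 4 ≤ (b : ℝ) ^ 6 := pow_le_pow_right₀ hb1 (by norm_num)
        gcongr)
      (by
        push_cast
        rw [abs_mul, abs_of_pos (by positivity : (0 : ℝ) < (b : ℝ) ^ 6)]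
        gcongr)
      hclose
    -- conclude
    have h0 : w ≤ K * (b * H) ^ (6 * M) := by
      calc w ≤ K * ((b : ℝ) ^ 6 * H) ^ M := hres
        _ ≤ K * ((b * H) ^ 6) ^ M := by
          have : (b : ℝ) ^ 6 * H ≤ (b * H) ^ 6 := by
            rw [mul_pow]
            have : H ≤ H ^ 6 := le_self_pow₀ hH1 (by norm_num)
            gcongr
          gcongr
        _ = K * (b * H) ^ (6 * M) := by rw [← pow_mul]
    have h5 : (x : ℝ) ≤ K ^ 2 * (b * H) ^ (12 * M) := by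
      calc (x : ℝ) = Real.sqrt x ^ 2 := (Real.sq_sqrt hx0.le).symm
        _ ≤ w ^ 2 := by
          have : Real.sqrt x ≤ w := by rw [hw]; nlinarith
          gcongr
        _ ≤ (K * (b * H) ^ (6 * M)) ^ 2 := by gcongr
        _ = K ^ 2 * (b * H) ^ (12 * M) := by
          rw [mul_pow, ← pow_mul]
          congr 2
          ring
    have h6 : (y : ℝ) ^ 2 ≤ 3 * H * (x : ℝ) ^ 3 := by
      have e1 : (y : ℝ) ^ 2 = (x : ℝ) ^ 3 + A * x + B := by exact_mod_cast hxy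
      have e2 : (A : ℝ) * x ≤ H * x := by
        apply mul_le_mul_of_nonneg_right _ hx0.le
        exact (le_abs_self _).trans hA
      have e3 : (B : ℝ) ≤ H := (le_abs_self _).trans hB
      have e4 : (x : ℝ) ≤ (x : ℝ) ^ 3 := le_self_pow₀ hx1 (by norm_num)
      have e5 : (1 : ℝ) ≤ (x : ℝ) ^ 3 := one_le_pow₀ hx1
      rw [e1]
      have e6 : (x : ℝ) ^ 3 ≤ H * (x : ℝ) ^ 3 := le_mul_of_one_le_left (by positivity) hH1
      have e7 : H * (x : ℝ) ≤ H * (x : ℝ) ^ 3 := mul_le_mul_of_nonneg_left e4 hH0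
      have e8 : H ≤ H * (x : ℝ) ^ 3 := le_mul_of_one_le_right hH0 e5
      linarith
    have h8 : |(y : ℝ)| ≤ 3 * K ^ 6 * (b * H) ^ (36 * M + 1) := by
      calc |(y : ℝ)| ≤ 3 * H * (x : ℝ) ^ 3 := (abs_le_sq y).trans h6
        _ ≤ 3 * (b * H) * (K ^ 2 * (b * H) ^ (12 * M)) ^ 3 := by gcongr
        _ = 3 * K ^ 6 * (b * H) ^ (36 * M + 1) := by
          rw [mul_pow, ← pow_mul, ← pow_mul, pow_succ (b * H) (36 * M),
            show 12 * M * 3 = 36 * M by ring]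
          ring
    apply max_le
    · rw [abs_of_pos hx0]
      refine h5.trans (hpw (12 * M) ?_ (K ^ 2) (by positivity) ?_)
      · push_cast; linarith
      · have : K ^ 2 ≤ K ^ 6 := pow_le_pow_right₀ hK (by norm_num)
        linarith
    · refine h8.trans (hpw (36 * M + 1) ?_ (3 * K ^ 6) (by positivity) (le_refl _))
      push_cast; linarith

/-- main theorem, the bound of the Hall–Lang conjecture -/
theorem main2 (ε : ℝ) (hε : 0 < ε) : ∃ δ K M : ℝ, 0 < δ ∧ 0 < K ∧ 0 < M ∧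
    ∀ A B x y : ℤ, 4 * A ^ 3 + 27 * B ^ 2 ≠ 0 → y ^ 2 = x ^ 3 + A * x + B →
      (∃ a b : ℤ, 1 ≤ b ∧ (b : ℝ) ≤ |(x : ℝ)| ^ δ ∧
        |(b : ℝ) ^ 2 * x - (a : ℝ) ^ 2| ≤ |(b : ℝ) ^ 2 * x| ^ (1 / 2 - ε)) →
      max |(x : ℝ)| |(y : ℝ)| ≤ K * (max |(A : ℝ)| |(B : ℝ)|) ^ M := by
  obtain ⟨K, M, hK, hM, hmain⟩ := main1 ε hε
  refine ⟨1 / (2 * M), K ^ 2, 2 * M, by positivity, by positivity, by positivity, ?_⟩
  intro A B x y hdisc hxy ⟨a, b, hb, hbx, hab⟩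
  have h := hmain A B x y a b hdisc hxy hb hab
  set H : ℝ := max |(A : ℝ)| |(B : ℝ)| with hH
  set Z : ℝ := max |(x : ℝ)| |(y : ℝ)| with hZ
  have hH1 : 1 ≤ H := height_ge_one A B hdisc
  have hH0 : 0 ≤ H := by linarith
  have hb1 : (1 : ℝ) ≤ b := by exact_mod_cast hb
  have hb0 : (0 : ℝ) ≤ b := by linarith
  have hxZ : |(x : ℝ)| ≤ Z := le_max_left _ _
  have hZ0 : 0 ≤ Z := (abs_nonneg _).trans hxZ
  have hδ : 0 < 1 / (2 * M) := by positivity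
  have hZpos : 0 < Z := by
    rcases hZ0.lt_or_eq with h1 | h1
    · exact h1
    · exfalso
      rw [← h1] at hxZ
      have h2 : |(x : ℝ)| = 0 := le_antisymm hxZ (abs_nonneg _)
      rw [h2, Real.zero_rpow hδ.ne'] at hbx
      linarith
  have h1 : (b : ℝ) ^ M ≤ Z ^ (1 / 2 : ℝ) := by
    calc (b : ℝ) ^ M ≤ (|(x : ℝ)| ^ (1 / (2 * M))) ^ M := Real.rpow_le_rpow hb0 hbx hM.le
      _ ≤ (Z ^ (1 / (2 * M))) ^ M := by gcongr
      _ = Z ^ (1 / 2 : ℝ) := by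
        rw [← Real.rpow_mul hZ0]
        congr 1
        field_simp
  rw [Real.mul_rpow hb0 hH0] at h
  have h2 : Z = Z ^ (1 / 2 : ℝ) * Z ^ (1 / 2 : ℝ) := by
    rw [← Real.rpow_add hZpos]; norm_num
  have hZh : 0 < Z ^ (1 / 2 : ℝ) := Real.rpow_pos_of_pos hZpos _
  have hHM : 0 ≤ H ^ M := by positivity
  have h3 : Z ^ (1 / 2 : ℝ) ≤ K * H ^ M := by
    have : Z ^ (1 / 2 : ℝ) * Z ^ (1 / 2 : ℝ) ≤ (K * H ^ M) * Z ^ (1 / 2 : ℝ) := by
      rw [← h2]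
      calc Z ≤ K * ((b : ℝ) ^ M * H ^ M) := h
        _ ≤ K * (Z ^ (1 / 2 : ℝ) * H ^ M) := by gcongr
        _ = _ := by ring
    exact le_of_mul_le_mul_right this hZh
  calc Z = (Z ^ (1 / 2 : ℝ)) ^ 2 := by rw [pow_two]; exact h2
    _ ≤ (K * H ^ M) ^ 2 := by gcongr
    _ = K ^ 2 * H ^ (2 * M) := by
      rw [mul_pow, mul_comm 2 M, Real.rpow_mul hH0, Real.rpow_two]

end Pool.Agent.W273.HL
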