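import Pool.Agent.W273.HL.Ser

/-!
Lame's equation: existence, uniqueness, the first integral, and the recurrences.
-/

set_option autoImplicit false

namespace Pool.Agent.W273.HL

open PowerSeries Finset

/-- Lame's operator for `t e^{-at} ψ(t)` -/
noncomputable def L (A B a x : ℝ) (F : ℝ⟦X⟧) : ℝ⟦X⟧ :=
  th (th F) - C 3 * th F + C 2 * F + C (2 * a) * X * (th F - F) + C (a ^ 2 - x) * X ^ 2 * F
    - C 2 * (Qs A B * F)

lemma cX0 (F : ℝ⟦X⟧) : coeff 0 (X * F) = 0 := coeff_zero_X_mul F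

lemma cX (F : ℝ⟦X⟧) (n : ℕ) : coeff (n + 1) (X * F) = coeff n F := coeff_succ_X_mul n F

lemma cX1 (F : ℝ⟦X⟧) : coeff 1 (X * F) = coeff 0 F := coeff_succ_X_mul 0 F

lemma cXX0 (F : ℝ⟦X⟧) : coeff 0 (X ^ 2 * F) = 0 := by
  rw [pow_two, mul_assoc, cX0]

lemma cXX1 (F : ℝ⟦X⟧) : coeff 1 (X ^ 2 * F) = 0 := by
  rw [pow_two, mul_assoc, cX1, cX0]

lemma coeff_L_zero (A B a x : ℝ) (F : ℝ⟦X⟧) : coeff 0 (L A B a x F) = 0 := by
  unfold L
  have e1 : coeff 0 (C (2 * a) * X * (th F - F)) = 0 := by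
    rw [mul_assoc, coeff_C_mul, cX0, mul_zero]
  have e2 : coeff 0 (C (a ^ 2 - x) * X ^ 2 * F) = 0 := by
    rw [mul_assoc, coeff_C_mul, cXX0, mul_zero]
  rw [map_sub, map_add, map_add, map_add, map_sub, e1, e2]
  simp only [coeff_C_mul, coeff_th, coeff_Qs_mul]
  simp

lemma coeff_L_one (A B a x : ℝ) (F : ℝ⟦X⟧) :
    coeff 1 (L A B a x F) = -2 * coeff 1 F - 2 * a * coeff 0 F := by
  unfold L
  have e1 : coeff 1 (C (2 * a) * X * (th F - F)) = - (2 * a) * coeff 0 F := by
    rw [mul_assoc, coeff_C_mul, cX1, map_sub, coeff_th]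
    push_cast; ring
  have e2 : coeff 1 (C (a ^ 2 - x) * X ^ 2 * F) = 0 := by
    rw [mul_assoc, coeff_C_mul, cXX1, mul_zero]
  rw [map_sub, map_add, map_add, map_add, map_sub, e1, e2]
  simp only [coeff_C_mul, coeff_th, coeff_Qs_mul, Finset.sum_range_one, zero_add, q_one]
  push_cast; ring

lemma coeff_L (A B a x : ℝ) (F : ℝ⟦X⟧) (n : ℕ) :
    coeff (n + 2) (L A B a x F) = ((n : ℝ) + 2) * ((n : ℝ) - 1) * coeff (n + 2) F
      + 2 * a * n * coeff (n + 1) F + (a ^ 2 - x) * coeff n F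
      - 2 * ∑ i ∈ range (n + 2), q A B (i + 1) * coeff (n + 1 - i) F := by
  unfold L
  have e1 : coeff (n + 2) (C (2 * a) * X * (th F - F)) = 2 * a * n * coeff (n + 1) F := by
    rw [mul_assoc, coeff_C_mul, show n + 2 = (n + 1) + 1 by ring, coeff_succ_X_mul, map_sub, coeff_th]
    push_cast; ring
  have e2 : coeff (n + 2) (C (a ^ 2 - x) * X ^ 2 * F) = (a ^ 2 - x) * coeff n F := by
    rw [mul_assoc, coeff_C_mul, coeff_X_pow_mul]
  rw [map_sub, map_add, map_add, map_add, map_sub, e1, e2]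
  simp only [coeff_C_mul, coeff_th, coeff_Qs_mul]
  have e3 : ∑ i ∈ range (n + 2), q A B (i + 1) * coeff (n + 2 - 1 - i) F =
      ∑ i ∈ range (n + 2), q A B (i + 1) * coeff (n + 1 - i) F := by
    apply Finset.sum_congr rfl
    intro i _
    congr 2
  rw [e3]
  push_cast; ring

/-- a solution of Lame's equation is determined by its coefficients at `0` and `3` -/
lemma L_unique (A B a x : ℝ) (F G : ℝ⟦X⟧) (hF : L A B a x F = 0) (hG : L A B a x G = 0)
    (h0 : coeff 0 F = coeff 0 G) (h3 : coeff 3 F = coeff 3 G) : F = G := by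
  ext n
  induction n using Nat.strong_induction_on with
  | _ n ih =>
    rcases n with _ | _ | n
    · exact h0
    · have e1 := congrArg (coeff 1) hF
      have e2 := congrArg (coeff 1) hG
      rw [coeff_L_one] at e1 e2
      simp only [map_zero] at e1 e2
      rw [h0] at e1
      show coeff 1 F = coeff 1 G
      linarith
    · by_cases hn : n = 1
      · subst hn; exact h3
      · have e1 := congrArg (coeff (n + 2)) hF
        have e2 := congrArg (coeff (n + 2)) hG
        rw [coeff_L] at e1 e2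
        simp only [map_zero] at e1 e2
        have h1 := ih (n + 1) (by omega)
        have h2 := ih n (by omega)
        have h4 : ∑ i ∈ range (n + 2), q A B (i + 1) * coeff (n + 1 - i) F =
            ∑ i ∈ range (n + 2), q A B (i + 1) * coeff (n + 1 - i) G := by
          apply Finset.sum_congr rfl
          intro i _
          rw [ih (n + 1 - i) (by omega)]
        rw [h1, h2, h4] at e1
        have h5 : ((n : ℝ) + 2) * ((n : ℝ) - 1) * (coeff (n + 2) F - coeff (n + 2) G) = 0 := by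
          linarith
        have h6 : ((n : ℝ) + 2) ≠ 0 := by positivity
        have h7 : ((n : ℝ) - 1) ≠ 0 := by
          intro h
          apply hn
          have : (n : ℝ) = 1 := by linarith
          exact_mod_cast this
        rcases mul_eq_zero.mp h5 with h | h
        · exact absurd h (mul_ne_zero h6 h7)
        · show coeff (n + 2) F = coeff (n + 2) G
          linarith

/-- the coefficients of the solution with free parameter `s` -/
noncomputable def f (A B a x s : ℝ) (n : ℕ) : ℝ :=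
  if n = 0 then 1 else if n = 3 then s else
    (-2 * a * ((n : ℝ) - 2) * f A B a x s (n - 1)
      + (x - a ^ 2) * (if n = 1 then 0 else f A B a x s (n - 2))
      + 2 * ∑ i : Fin n, q A B (i.1 + 1) * f A B a x s (n - 1 - i.1)) / ((n : ℝ) * ((n : ℝ) - 3))
termination_by n
decreasing_by
  · omega
  · omega
  · have := i.2; omega

lemma f_zero (A B a x s : ℝ) : f A B a x s 0 = 1 := by rw [f]; simp

lemma f_three (A B a x s : ℝ) : f A B a x s 3 = s := by rw [f]; simp

lemma f_rec (A B a x s : ℝ) (n : ℕ) (h0 : n ≠ 0) (h3 : n ≠ 3) :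
    (n : ℝ) * ((n : ℝ) - 3) * f A B a x s n = -2 * a * ((n : ℝ) - 2) * f A B a x s (n - 1)
      + (x - a ^ 2) * (if n = 1 then 0 else f A B a x s (n - 2))
      + 2 * ∑ i ∈ range n, q A B (i + 1) * f A B a x s (n - 1 - i) := by
  rw [f, if_neg h0, if_neg h3]
  have h1 : (n : ℝ) ≠ 0 := by exact_mod_cast h0
  have h2 : ((n : ℝ) - 3) ≠ 0 := by
    intro h
    apply h3
    have : (n : ℝ) = 3 := by linarith
    exact_mod_cast this
  rw [mul_div_cancel₀ _ (mul_ne_zero h1 h2)]
  rw [Fin.sum_univ_eq_sum_range (fun i => q A B (i + 1) * f A B a x s (n - 1 - i))]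

lemma f_one (A B a x s : ℝ) : f A B a x s 1 = -a := by
  have h := f_rec A B a x s 1 (by norm_num) (by norm_num)
  norm_num [f_zero, q_one] at h
  linarith

lemma f_two (A B a x s : ℝ) : f A B a x s 2 = -(x - a ^ 2) / 2 := by
  have h := f_rec A B a x s 2 (by norm_num) (by norm_num)
  norm_num [f_zero, f_one, q_one, q_two, Finset.sum_range_succ] at h
  linarith

noncomputable def Fs (A B a x s : ℝ) : ℝ⟦X⟧ := mk (f A B a x s)

lemma coeff_Fs (A B a x s : ℝ) (n : ℕ) : coeff n (Fs A B a x s) = f A B a x s n := coeff_mk _ _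

lemma L_Fs (A B a x s : ℝ) : L A B a x (Fs A B a x s) = 0 := by
  ext n
  rcases n with _ | _ | n
  · rw [coeff_L_zero]; simp
  · show coeff 1 _ = coeff 1 (0 : ℝ⟦X⟧)
    rw [coeff_L_one, coeff_Fs, coeff_Fs, f_zero, f_one]; simp
  · show coeff (n + 2) _ = coeff (n + 2) (0 : ℝ⟦X⟧)
    rw [coeff_L]
    simp only [coeff_Fs, map_zero]
    by_cases hn : n = 1
    · subst hn
      norm_num [Finset.sum_range_succ, f_zero, f_one, f_two, f_three, q_one, q_two, q_three]
      ring
    · have h := f_rec A B a x s (n + 2) (by omega) (by omega)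
      rw [if_neg (by omega)] at h
      simp only [Nat.add_sub_cancel] at h
      have e3 : ∑ i ∈ range (n + 2), q A B (i + 1) * f A B a x s (n + 2 - 1 - i) =
          ∑ i ∈ range (n + 2), q A B (i + 1) * f A B a x s (n + 1 - i) := by
        apply Finset.sum_congr rfl
        intro i _
        congr 2
      rw [e3] at h
      have e4 : n + 2 - 1 = n + 1 := by omega
      rw [e4] at h
      push_cast at h
      linarith

/-- the first integral of Lame's equation -/
noncomputable def W (A B a x y : ℝ) (F : ℝ⟦X⟧) : ℝ⟦X⟧ :=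
  (Qs A B - C x * X ^ 2) * (th F - F + C a * X * F) - C (1 / 2) * Ts A B * F + C y * X ^ 3 * F

lemma W_ode (A B a x y : ℝ) (hy : y ^ 2 = x ^ 3 + A * x + B) (F : ℝ⟦X⟧) (hF : L A B a x F = 0) :
    (Qs A B - C x * X ^ 2) * th (W A B a x y F) =
      (W A B a x y F) * (C (1 / 2) * Ts A B + C y * X ^ 3 + (C 4 - C a * X) * (Qs A B - C x * X ^ 2))
      := by
  have hT := th_Ts A B
  have hT2 := Ts_sq A B
  have hQ : th (Qs A B) = Ts A B + C 2 * Qs A B := by unfold Ts; ring
  unfold L at hF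
  unfold W
  set T := Ts A B with hTd
  set Q := Qs A B with hQd
  have hth : th (th F) = C 3 * th F - C 2 * F - C (2 * a) * X * (th F - F)
      - C (a ^ 2 - x) * X ^ 2 * F + C 2 * (Q * F) := by linear_combination hF
  simp only [pow_succ, pow_zero, one_mul, th_sub, th_add, th_mul, th_C, th_X]
  rw [hth, hT, hQ]
  have c2 : (C (2 : ℝ) : ℝ⟦X⟧) = 2 := by rw [map_ofNat]
  have c3 : (C (3 : ℝ) : ℝ⟦X⟧) = 3 := by rw [map_ofNat]
  have c4 : (C (4 : ℝ) : ℝ⟦X⟧) = 4 := by rw [map_ofNat]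
  have c6 : (C (6 : ℝ) : ℝ⟦X⟧) = 6 := by rw [map_ofNat]
  have hh : (2 : ℝ⟦X⟧) * C (1 / 2) = 1 := by
    rw [← c2, ← map_mul]; norm_num
  have hyC : (C y : ℝ⟦X⟧) ^ 2 = C x ^ 3 + C A * C x + C B := by
    rw [← map_pow, ← map_pow, ← map_mul, ← map_add, ← map_add, hy]
  rw [map_mul, map_mul] at hT2
  rw [map_mul, map_mul, map_sub, map_pow]
  rw [c4] at hT2 ⊢
  rw [c2, c3, c6]
  set h : ℝ⟦X⟧ := C (1 / 2) with hhd
  set a' : ℝ⟦X⟧ := C a
  set x' : ℝ⟦X⟧ := C x
  set y' : ℝ⟦X⟧ := C y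
  set A' : ℝ⟦X⟧ := C A
  set B' : ℝ⟦X⟧ := C B
  set t : ℝ⟦X⟧ := X
  set G := th F
  linear_combination (h ^ 2 * F) * hT2 - t ^ 6 * F * hyC +
    (-(Q - x' * t ^ 2) * T * (G - F + a' * t * F) +
      (2 * h + 1) * (Q ^ 3 + A' * t ^ 4 * Q + B' * t ^ 6) * F -
        (3 * Q ^ 2 + A' * t ^ 4) * F * (Q - x' * t ^ 2)) * hh

/-- a first order equation with indicial exponent `3` only -/
lemma eq_zero_of_ode (U R V : ℝ⟦X⟧) (hU : coeff 0 U = 1) (hR : coeff 0 R = 3)
    (h : U * th V = V * R) (h3 : coeff 3 V = 0) : V = 0 := by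
  ext n
  rw [map_zero]
  induction n using Nat.strong_induction_on with
  | _ n ih =>
    by_cases hn : n = 3
    · subst hn; exact h3
    · have e := congrArg (coeff n) h
      rw [mul_comm V R, coeff_mul, coeff_mul,
        Finset.Nat.sum_antidiagonal_eq_sum_range_succ (fun i j => coeff i U * coeff j (th V)),
        Finset.Nat.sum_antidiagonal_eq_sum_range_succ (fun i j => coeff i R * coeff j V),
        Finset.sum_range_succ', Finset.sum_range_succ'] at e
      rw [Finset.sum_eq_zero, Finset.sum_eq_zero] at e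
      · rw [hU, hR, Nat.sub_zero, coeff_th] at e
        have h5 : ((n : ℝ) - 3) * coeff n V = 0 := by linarith
        rcases mul_eq_zero.mp h5 with h | h
        · exfalso
          apply hn
          have : (n : ℝ) = 3 := by linarith
          exact_mod_cast this
        · exact h
      · intro i hi
        rw [mem_range] at hi
        rw [ih (n - (i + 1)) (by omega), mul_zero]
      · intro i hi
        rw [mem_range] at hi
        rw [coeff_th, ih (n - (i + 1)) (by omega), mul_zero, mul_zero]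

/-- the free parameter for which the first integral vanishes -/
noncomputable def sp (x y a : ℝ) : ℝ := -(2 * y - 3 * a * x + a ^ 3) / 6

/-- the first integral written with products by `Q` only -/
lemma W_eq (A B a x y : ℝ) (F : ℝ⟦X⟧) : W A B a x y F =
    C (3 / 2) * (Qs A B * th F) - C (1 / 2) * th (Qs A B * F) + C a * (X * (Qs A B * F))
      - C x * (X ^ 2 * (th F - F)) + C (y - a * x) * (X ^ 3 * F) := by
  unfold W Ts
  rw [th_mul]
  have c2 : (C (2 : ℝ) : ℝ⟦X⟧) = 2 := by rw [map_ofNat]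
  have e1 : (C (3 / 2 : ℝ) : ℝ⟦X⟧) = 1 + C (1 / 2) := by
    rw [← map_one C, ← map_add]; norm_num
  have hh : (2 : ℝ⟦X⟧) * C (1 / 2) = 1 := by
    rw [← c2, ← map_mul]; norm_num
  rw [e1, c2, map_sub, map_mul]
  linear_combination (Qs A B * F) * hh

lemma coeff_W (A B a x y : ℝ) (F : ℝ⟦X⟧) (n : ℕ) : coeff (n + 3) (W A B a x y F) =
    ((n : ℝ) + 3) * coeff (n + 3) F + a * coeff (n + 2) F - x * n * coeff (n + 1) F
      + (y - a * x) * coeff n F
      + ∑ i ∈ range (n + 3), q A B (i + 1) *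
          ((3 / 2 * ((n + 2 - i : ℕ) : ℝ) - ((n : ℝ) + 3) / 2) * coeff (n + 2 - i) F)
      + a * ∑ i ∈ range (n + 2), q A B (i + 1) * coeff (n + 1 - i) F := by
  rw [W_eq]
  have e1 : coeff (n + 3) (X * (Qs A B * F)) = coeff (n + 2) (Qs A B * F) := cX _ _
  have e2 : coeff (n + 3) (X ^ 2 * (th F - F)) = coeff (n + 1) (th F - F) := by
    rw [show n + 3 = (n + 1) + 2 by ring, coeff_X_pow_mul]
  have e3 : coeff (n + 3) (X ^ 3 * F) = coeff n F := by
    rw [coeff_X_pow_mul]
  rw [map_add, map_sub, map_add, map_sub, coeff_C_mul, coeff_C_mul, coeff_C_mul, coeff_C_mul,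
    coeff_C_mul, coeff_th, e1, e2, e3, map_sub, coeff_Qs_mul, coeff_Qs_mul, coeff_Qs_mul]
  simp only [coeff_th]
  have s1 : ∑ i ∈ range (n + 3), q A B (i + 1) *
      ((3 / 2 * ((n + 2 - i : ℕ) : ℝ) - ((n : ℝ) + 3) / 2) * coeff (n + 2 - i) F) =
      3 / 2 * ∑ i ∈ range (n + 3), q A B (i + 1) * (((n + 3 - 1 - i : ℕ) : ℝ) *
        coeff (n + 3 - 1 - i) F) - ((n : ℝ) + 3) / 2 *
        ∑ i ∈ range (n + 3), q A B (i + 1) * coeff (n + 3 - 1 - i) F := by
    rw [Finset.mul_sum, Finset.mul_sum, ← Finset.sum_sub_distrib]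
    apply Finset.sum_congr rfl
    intro i _
    have : n + 3 - 1 - i = n + 2 - i := by omega
    rw [this]; ring
  have s2 : ∑ i ∈ range (n + 2), q A B (i + 1) * coeff (n + 1 - i) F =
      ∑ i ∈ range (n + 2), q A B (i + 1) * coeff (n + 2 - 1 - i) F := by
    apply Finset.sum_congr rfl
    intro i _
    have : n + 2 - 1 - i = n + 1 - i := by omega
    rw [this]
  rw [s1, s2]
  push_cast
  ring

lemma W_Fs (A B a x y : ℝ) (hy : y ^ 2 = x ^ 3 + A * x + B) :
    W A B a x y (Fs A B a x (sp x y a)) = 0 := by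
  have h := W_ode A B a x y hy _ (L_Fs A B a x (sp x y a))
  apply eq_zero_of_ode (Qs A B - C x * X ^ 2) _ _ _ _ h
  · have := coeff_W A B a x y (Fs A B a x (sp x y a)) 0
    simp only [zero_add] at this
    rw [this]
    simp only [coeff_Fs, Finset.sum_range_succ, Finset.sum_range_zero, zero_add, q_one,
      f_zero, f_one, f_two, f_three, sp]
    norm_num [q_two, q_three]
    ring
  · rw [map_sub, coeff_Qs, q_zero, coeff_C_mul]
    simp
  · have e1 : constantCoeff (Ts A B) = -2 := by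
      rw [← coeff_zero_eq_constantCoeff_apply, coeff_Ts, q_zero]; norm_num
    have e2 : constantCoeff (Qs A B) = 1 := by
      rw [← coeff_zero_eq_constantCoeff_apply, coeff_Qs, q_zero]
    simp [e1, e2]
    norm_num

/-- coefficients of the first integral -/
lemma R1 (A B a x y : ℝ) (hy : y ^ 2 = x ^ 3 + A * x + B) (n : ℕ) :
    ((n : ℝ) + 3) * f A B a x (sp x y a) (n + 3) + a * f A B a x (sp x y a) (n + 2)
      - x * n * f A B a x (sp x y a) (n + 1)
      + (y - a * x) * f A B a x (sp x y a) n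
      + ∑ i ∈ range (n + 3), q A B (i + 1) *
          ((3 / 2 * ((n + 2 - i : ℕ) : ℝ) - ((n : ℝ) + 3) / 2) * f A B a x (sp x y a) (n + 2 - i))
      + a * ∑ i ∈ range (n + 2), q A B (i + 1) * f A B a x (sp x y a) (n + 1 - i) = 0 := by
  have h := coeff_W A B a x y (Fs A B a x (sp x y a)) n
  rw [W_Fs A B a x y hy, map_zero] at h
  simp only [coeff_Fs] at h
  exact h.symm

/-- coefficients of Lame's equation -/
lemma R2 (A B a x s : ℝ) (n : ℕ) :
    ((n : ℝ) + 2) * ((n : ℝ) - 1) * f A B a x s (n + 2)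
      + 2 * a * n * f A B a x s (n + 1) + (a ^ 2 - x) * f A B a x s n
      - 2 * ∑ i ∈ range (n + 2), q A B (i + 1) * f A B a x s (n + 1 - i) = 0 := by
  have h := coeff_L A B a x (Fs A B a x s) n
  rw [L_Fs, map_zero] at h
  simp only [coeff_Fs] at h
  exact h.symm

/-- the sum `S` for the special choice `a = w`, `x = w²` -/
noncomputable def g (A B w y : ℝ) (n : ℕ) : ℝ := f A B w (w ^ 2) (sp (w ^ 2) y w) n

lemma g_zero (A B w y : ℝ) : g A B w y 0 = 1 := f_zero _ _ _ _ _
lemma g_one (A B w y : ℝ) : g A B w y 1 = -w := f_one _ _ _ _ _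
lemma g_two (A B w y : ℝ) : g A B w y 2 = 0 := by
  unfold g; rw [f_two]; ring
lemma g_three (A B w y : ℝ) : g A B w y 3 = -(y - w ^ 3) / 3 := by
  unfold g; rw [f_three, sp]; ring

/-- the recursion used for the bounds -/
lemma R3 (A B w y : ℝ) (hy : y ^ 2 = (w ^ 2) ^ 3 + A * w ^ 2 + B) (n : ℕ) :
    w ^ 2 * (n + 1) * n * (n - 2) * g A B w y (n + 1) =
      ((n : ℝ) - 1) * (2 * ∑ i ∈ range (n + 3), q A B (i + 1) * g A B w y (n + 2 - i)
        + n * ((y - w ^ 3) * g A B w y n
          + ∑ i ∈ range (n + 3), q A B (i + 1) *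
            ((3 / 2 * ((n + 2 - i : ℕ) : ℝ) - ((n : ℝ) + 3) / 2) * g A B w y (n + 2 - i))))
      + ((n : ℝ) + 1) * (n - 2) *
        (w * ∑ i ∈ range (n + 2), q A B (i + 1) * g A B w y (n + 1 - i))
      := by
  have h1 := R1 A B w (w ^ 2) y hy n
  have h2 := R2 A B w (w ^ 2) (sp (w ^ 2) y w) (n + 1)
  have h3 := R2 A B w (w ^ 2) (sp (w ^ 2) y w) n
  have e1 : n + 1 + 2 = n + 3 := by ring
  have e2 : n + 1 + 1 = n + 2 := by ring
  rw [e1, e2] at h2
  push_cast at h2
  unfold g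
  linear_combination (-((n : ℝ) * (n - 1))) * h1 + ((n : ℝ) - 1) * h2 - w * h3

end Pool.Agent.W273.HL
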