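import Pool.Agent.W273.HL.Core

/-!
The bound for integral points with abscissa close to a square.
-/

set_option autoImplicit false

namespace Pool.Agent.W273.HL

open Finset

lemma est_common (N : ℕ) : ∃ C : ℝ, ∃ e : ℕ, 0 ≤ C ∧ ∀ p, Dom p → ∀ J, 1 ≤ J → J < N →
    |f p.A p.B (p.w - p.r) (p.w ^ 2) (sp (p.w ^ 2) p.y (p.w - p.r)) (J + 1)
      + q p.A p.B (J + 1) / J + p.w * p.r ^ J / (J.factorial : ℝ)| ≤
      C * p.H ^ e * (|p.r| + 1 / p.w) := by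
  induction N with
  | zero => exact ⟨0, 0, le_refl _, fun p _ J h1 h2 => absurd h2 (by omega)⟩
  | succ N ih =>
    obtain ⟨C, e, hC, hb⟩ := ih
    rcases Nat.eq_zero_or_pos N with h0 | hN
    · exact ⟨0, 0, le_refl _, fun p _ J h1 h2 => absurd h2 (by omega)⟩
    obtain ⟨C', e', hC', hb'⟩ := est N hN
    refine ⟨C + C', e + e', by positivity, fun p hp J h1 h2 => ?_⟩
    have hH := hp.hH
    have hw := hp.hw
    have h3 : p.H ^ e ≤ p.H ^ (e + e') := pow_le_pow_right₀ hH (by omega)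
    have h4 : p.H ^ e' ≤ p.H ^ (e + e') := pow_le_pow_right₀ hH (by omega)
    have h5 : 0 ≤ |p.r| + 1 / p.w := by positivity
    have h6 : 0 ≤ p.H ^ (e + e') := by positivity
    rcases Nat.lt_succ_iff_lt_or_eq.mp h2 with h | h
    · refine (hb p hp J h1 h).trans ?_
      apply mul_le_mul_of_nonneg_right _ h5
      calc C * p.H ^ e ≤ C * p.H ^ (e + e') := by gcongr
        _ ≤ (C + C') * p.H ^ (e + e') := by nlinarith
    · subst h
      refine (hb' p hp).trans ?_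
      apply mul_le_mul_of_nonneg_right _ h5
      calc C' * p.H ^ e' ≤ C' * p.H ^ (e + e') := by gcongr
        _ ≤ (C + C') * p.H ^ (e + e') := by nlinarith

lemma q_common (N : ℕ) : ∃ C : ℝ, ∃ e : ℕ, 0 ≤ C ∧ ∀ p, Dom p → ∀ n, n < N →
    |q p.A p.B n| ≤ C * p.H ^ e := by
  induction N with
  | zero => exact ⟨0, 0, le_refl _, fun p _ J h2 => absurd h2 (by omega)⟩
  | succ N ih =>
    obtain ⟨C, e, hC, hb⟩ := ih
    obtain ⟨C', e', hC', hb'⟩ := PB_q N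
    refine ⟨C + C', e + e', by positivity, fun p hp J h2 => ?_⟩
    have hH := hp.hH
    have h3 : p.H ^ e ≤ p.H ^ (e + e') := pow_le_pow_right₀ hH (by omega)
    have h4 : p.H ^ e' ≤ p.H ^ (e + e') := pow_le_pow_right₀ hH (by omega)
    have h6 : 0 ≤ p.H ^ (e + e') := by positivity
    rcases Nat.lt_succ_iff_lt_or_eq.mp h2 with h | h
    · refine (hb p hp J h).trans ?_
      calc C * p.H ^ e ≤ C * p.H ^ (e + e') := by gcongr
        _ ≤ (C + C') * p.H ^ (e + e') := by nlinarith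
    · subst h
      refine (hb' p hp).trans ?_
      calc C' * p.H ^ e' ≤ C' * p.H ^ (e + e') := by gcongr
        _ ≤ (C + C') * p.H ^ (e + e') := by nlinarith

/-- the case of equality in the first step -/
lemma case2 (A B a x y : ℤ) (w H : ℝ) (hdisc : 4 * A ^ 3 + 27 * B ^ 2 ≠ 0)
    (hxy : y ^ 2 = x ^ 3 + A * x + B) (hw : 1 ≤ w) (hwx : w ^ 2 = x) (hH : 1 ≤ H)
    (hA : |(A : ℝ)| ≤ H) (hB : |(B : ℝ)| ≤ H) (hm : 2 * y - 3 * a * x + a ^ 3 = 0)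
    (hρ1 : |w - a| ≤ 1) (hρ : w * (w - a) ^ 2 ≤ 1 / 4) : w ≤ 9216 * H ^ 2 := by
  set c : ℤ := x - a ^ 2 with hc
  have hx : x = a ^ 2 + c := by rw [hc]; ring
  have h1 : a ^ 2 * (3 * c ^ 2 + 4 * A) + 4 * (c ^ 3 + A * c + B) = 0 := by
    have h2 : 2 * y = 2 * a ^ 3 + 3 * a * c := by rw [hc]; linear_combination hm
    have h3 : (2 * y) ^ 2 = 4 * (x ^ 3 + A * x + B) := by rw [← hxy]; ring
    rw [h2, hx] at h3
    linear_combination -h3
  have h2 : 3 * c ^ 2 + 4 * A ≠ 0 := by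
    intro h
    rw [h, mul_zero, zero_add] at h1
    apply hdisc
    have h3 : c ^ 3 + A * c + B = 0 := by linarith
    have hB' : B = -(c ^ 3 + A * c) := by linarith
    have : 16 * (4 * A ^ 3 + 27 * B ^ 2) = 0 := by
      have e1 : 4 * B = -c ^ 3 := by
        rw [hB']; linear_combination (-c) * h
      have e2 : 4 * A = -3 * c ^ 2 := by linarith
      calc 16 * (4 * A ^ 3 + 27 * B ^ 2) = (4 * A) ^ 3 + 27 * (4 * B) ^ 2 := by ring
        _ = 0 := by rw [e1, e2]; ring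
    linarith
  have h3 : 1 ≤ |3 * c ^ 2 + 4 * A| := Int.one_le_abs h2
  have h4 : a ^ 2 ≤ 4 * |c ^ 3 + A * c + B| := by
    have e1 : a ^ 2 * |3 * c ^ 2 + 4 * A| = 4 * |c ^ 3 + A * c + B| := by
      have : a ^ 2 * (3 * c ^ 2 + 4 * A) = -(4 * (c ^ 3 + A * c + B)) := by linarith
      calc a ^ 2 * |3 * c ^ 2 + 4 * A| = |a ^ 2 * (3 * c ^ 2 + 4 * A)| := by
            rw [abs_mul, abs_of_nonneg (sq_nonneg a)]
        _ = |-(4 * (c ^ 3 + A * c + B))| := by rw [this]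
        _ = _ := by rw [abs_neg, abs_mul]; norm_num
    nlinarith [sq_nonneg a]
  have h5 : (a : ℝ) ^ 2 ≤ 4 * |(c : ℝ) ^ 3 + A * c + B| := by exact_mod_cast h4
  set t : ℝ := Real.sqrt w with ht
  have ht0 : 0 ≤ t := Real.sqrt_nonneg w
  have htw : t ^ 2 = w := Real.sq_sqrt (by linarith)
  have ht1 : 1 ≤ t := by
    rw [ht]; exact Real.one_le_sqrt.mpr hw
  by_cases hw2 : w < 2
  · nlinarith
  push Not at hw2
  have hcr : (c : ℝ) = (w - a) * (2 * w - (w - a)) := by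
    rw [hc]; push_cast; rw [← hwx]; ring
  set ρ : ℝ := w - a with hρd
  have har : (a : ℝ) = w - ρ := by rw [hρd]; ring
  have hρt : |ρ| * t ≤ 1 / 2 := by
    have : (|ρ| * t) ^ 2 ≤ (1 / 2) ^ 2 := by
      rw [mul_pow, sq_abs, htw]; linarith
    exact abs_le_of_sq_le_sq' this (by norm_num) |>.2
  have hρw : |2 * w - ρ| ≤ 3 * w := by
    rw [abs_le] at hρ1 ⊢
    constructor <;> linarith
  have hct : |(c : ℝ)| ≤ 3 / 2 * t := by
    rw [hcr, abs_mul]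
    calc |ρ| * |2 * w - ρ| ≤ |ρ| * (3 * w) := by gcongr
      _ = 3 * t * (|ρ| * t) := by rw [← htw]; ring
      _ ≤ 3 * t * (1 / 2) := by gcongr
      _ = 3 / 2 * t := by ring
  have ha2 : w ^ 2 / 4 ≤ (a : ℝ) ^ 2 := by
    rw [har]
    have e1 : w / 2 ≤ w - ρ := by
      rw [abs_le] at hρ1; linarith
    have e2 : 0 ≤ w / 2 := by linarith
    nlinarith
  have hc3 : |(c : ℝ) ^ 3 + A * c + B| ≤ 27 / 8 * t ^ 3 + H * (3 / 2 * t) + H := by
    calc |(c : ℝ) ^ 3 + A * c + B| ≤ |(c : ℝ) ^ 3 + A * c| + |(B : ℝ)| := abs_add_le _ _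
      _ ≤ |(c : ℝ) ^ 3| + |(A : ℝ) * c| + |(B : ℝ)| := by gcongr; exact abs_add_le _ _
      _ = |(c : ℝ)| ^ 3 + |(A : ℝ)| * |(c : ℝ)| + |(B : ℝ)| := by rw [abs_pow, abs_mul]
      _ ≤ (3 / 2 * t) ^ 3 + H * (3 / 2 * t) + H := by gcongr
      _ = _ := by ring
  have hfin : t ^ 4 / 4 ≤ 4 * (6 * H * t ^ 3) := by
    have e1 : w ^ 2 = t ^ 4 := by rw [← htw]; ring
    have e2 : t ≤ t ^ 3 := by
      have : 1 ≤ t ^ 2 := one_le_pow₀ ht1
      nlinarith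
    have e3 : (1 : ℝ) ≤ t ^ 3 := one_le_pow₀ ht1
    have e4 : t ^ 3 ≤ H * t ^ 3 := by nlinarith
    have e5 : H * t ≤ H * t ^ 3 := by nlinarith
    have e6 : H ≤ H * t ^ 3 := by nlinarith
    rw [e1] at ha2
    nlinarith
  have ht96 : t ≤ 96 * H := by
    have e3 : 0 < t ^ 3 := by positivity
    have : t * t ^ 3 ≤ (96 * H) * t ^ 3 := by nlinarith
    exact le_of_mul_le_mul_right this e3
  calc w = t ^ 2 := htw.symm
    _ ≤ (96 * H) ^ 2 := by gcongr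
    _ = 9216 * H ^ 2 := by ring

/-- the core with explicit smallness conditions -/
lemma core0 (N : ℕ) (hN : 2 ≤ N) : ∃ X : ℝ, ∃ e : ℕ, 1 ≤ X ∧ ∀ (A B a x y : ℤ) (w H θ : ℝ),
    4 * A ^ 3 + 27 * B ^ 2 ≠ 0 → y ^ 2 = x ^ 3 + A * x + B → 1 ≤ w → w ^ 2 = x → 0 ≤ y →
    1 ≤ H → |(A : ℝ)| ≤ H → |(B : ℝ)| ≤ H → |w - a| ≤ θ → 1 / w ≤ θ → w * |w - a| ^ N ≤ θ →
    X * H ^ e * θ ≤ 1 → w ≤ 9216 * H ^ 2 := by
  obtain ⟨C1, e1, hC1, hb1⟩ := est_common (N + 7)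
  obtain ⟨C2, e2, hC2, hb2⟩ := q_common (N + 8)
  obtain ⟨D1, hD1, hi1⟩ := DB.common (N + 8) (fun n p => f (p.A : ℝ) (p.B : ℝ) (p.a : ℝ) (p.x : ℝ)
    (sp (p.x : ℝ) (p.y : ℝ) (p.a : ℝ)) n + ((1 / ((n : ℚ) - 1) : ℚ) : ℝ) * q (p.A : ℝ) (p.B : ℝ) n)
    (fun n => (DB_f n).add ((DB.rat _).mul (DB_q n)))
  obtain ⟨D2, hD2, hi2⟩ := DB.common (N + 8) (fun n p => q (p.A : ℝ) (p.B : ℝ) n) DB_q
  set D := D1 * D2 with hD
  have hD0 : 0 < D := Nat.mul_pos hD1 hD2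
  have hDr : (0 : ℝ) < D := by exact_mod_cast hD0
  refine ⟨2 + 16 * D * C1 + 8 * D + 4 * N * C2 * D, e1 + e2, by
    have : 0 ≤ 16 * (D : ℝ) * C1 := by positivity
    have : 0 ≤ 4 * (N : ℝ) * C2 * D := by positivity
    linarith, ?_⟩
  intro A B a x y w H θ hdisc hxy hw hwx hy0 hH hA hB h1 h2 h3 h4
  have hw0 : 0 < w := by linarith
  have hθ0 : 0 < θ := lt_of_lt_of_le (by positivity) h2
  have hHe : 1 ≤ H ^ (e1 + e2) := one_le_pow₀ hH
  have g1 : 0 ≤ (D : ℝ) * C1 * H ^ (e1 + e2) * θ := by positivity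
  have g2 : 0 ≤ (N : ℝ) * C2 * D * H ^ (e1 + e2) * θ := by positivity
  have g3 : (D : ℝ) * θ ≤ D * H ^ (e1 + e2) * θ := by
    have : (D : ℝ) * 1 * θ ≤ D * H ^ (e1 + e2) * θ := by gcongr
    linarith
  have g3' : θ ≤ H ^ (e1 + e2) * θ := by nlinarith
  have g4 : 2 * (H ^ (e1 + e2) * θ) + 16 * ((D : ℝ) * C1 * H ^ (e1 + e2) * θ) +
    8 * (D * H ^ (e1 + e2) * θ) + 4 * ((N : ℝ) * C2 * D * H ^ (e1 + e2) * θ) ≤ 1 := by
    calc _ = (2 + 16 * D * C1 + 8 * D + 4 * N * C2 * D) * H ^ (e1 + e2) * θ := by ring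
      _ ≤ 1 := h4
  have g5 : 0 ≤ (D : ℝ) * H ^ (e1 + e2) * θ := by positivity
  have hθ2 : θ ≤ 1 / 2 := by nlinarith
  set ρ := w - a with hρ
  have hρθ : |ρ| ≤ θ := h1
  have hρ1 : |ρ| ≤ 1 := by linarith
  have hxr : (x : ℝ) = w ^ 2 := hwx.symm
  have hyr : (y : ℝ) ^ 2 = (w ^ 2) ^ 3 + A * w ^ 2 + B := by
    rw [← hxr]; exact_mod_cast hxy
  have hy0r : (0 : ℝ) ≤ y := by exact_mod_cast hy0
  set p : Pt := ⟨A, B, w, y, ρ, H⟩ with hp
  have hdom : Dom p := ⟨hH, hA, hB, hw, hy0r, hyr, hρ1⟩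
  have har : w - ρ = (a : ℝ) := by rw [hρ]; ring
  have hest : ∀ J, 1 ≤ J → J < N + 7 →
      |f A B a (w ^ 2) (sp (w ^ 2) y a) (J + 1) + q A B (J + 1) / J +
        w * ρ ^ J / (J.factorial : ℝ)| ≤ 1 / (8 * D) := by
    intro J hJ1 hJ2
    have hh := hb1 p hdom J hJ1 hJ2
    simp only [hp] at hh
    rw [har] at hh
    refine hh.trans ?_
    have i1 : H ^ e1 ≤ H ^ (e1 + e2) := pow_le_pow_right₀ hH (by omega)
    have i2 : |ρ| + 1 / w ≤ 2 * θ := by linarith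
    have i3 : 0 ≤ |ρ| + 1 / w := by positivity
    have i4 : C1 * H ^ e1 * (|ρ| + 1 / w) ≤ C1 * H ^ (e1 + e2) * (2 * θ) := by gcongr
    refine i4.trans ?_
    rw [le_div_iff₀ (by positivity)]
    nlinarith
  have hcore := core_alg N hN D hD0 (A : ℝ) (B : ℝ) (a : ℝ) (w ^ 2) (sp (w ^ 2) y a) w ρ
    (C2 * H ^ (e1 + e2)) hw0.le hρ1 (by positivity) (by
      intro n hn
      obtain ⟨z, hz⟩ := hi1 ⟨A, B, a, x, y⟩ n hn
      refine ⟨D2 * z, ?_⟩
      simp only at hz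
      rw [hxr] at hz
      push_cast at hz ⊢
      rw [← hz, hD]; push_cast; ring) (by
      intro n hn
      obtain ⟨z, hz⟩ := hi2 ⟨A, B, a, x, y⟩ n hn
      refine ⟨D1 * z, ?_⟩
      simp only at hz
      push_cast at hz ⊢
      rw [← hz, hD]; push_cast; ring) (by
      intro n hn
      have hh := hb2 p hdom n hn
      simp only [hp] at hh
      refine hh.trans ?_
      have i1 : H ^ e2 ≤ H ^ (e1 + e2) := pow_le_pow_right₀ hH (by omega)
      gcongr) hest (by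
      refine h3.trans ?_
      rw [le_div_iff₀ (by positivity)]
      nlinarith) (by
      have i1 : ρ ^ 2 ≤ θ := by
        rw [← sq_abs]
        calc |ρ| ^ 2 = |ρ| * |ρ| := by ring
          _ ≤ θ * 1 := by gcongr
          _ = θ := mul_one θ
      have i2 : (N : ℝ) * (C2 * H ^ (e1 + e2)) * (2 * ρ ^ 2) * D ≤
          N * (C2 * H ^ (e1 + e2)) * (2 * θ) * D := by gcongr
      refine lt_of_le_of_lt i2 ?_
      nlinarith) (by
      have i1 : ρ ^ 2 ≤ θ ^ 2 := by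
        rw [← sq_abs]; gcongr
      nlinarith)
  rcases hcore with ⟨hA0, hB0⟩ | ⟨hf3, hρw⟩
  · exfalso
    apply hdisc
    have a1 : A = 0 := by exact_mod_cast hA0
    have a2 : B = 0 := by exact_mod_cast hB0
    rw [a1, a2]; ring
  · rw [f_three, sp, ← hxr] at hf3
    have hm : 2 * y - 3 * a * x + a ^ 3 = 0 := by
      have : (2 * (y : ℝ) - 3 * a * x + a ^ 3) = 0 := by linarith
      exact_mod_cast this
    apply case2 A B a x y w H hdisc hxy hw hwx hH hA hB hm hρ1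
    refine hρw.trans ?_
    have : (1 : ℝ) ≤ D := by exact_mod_cast hD0
    rw [div_le_div_iff₀ (by positivity) (by norm_num)]
    linarith

end Pool.Agent.W273.HL
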