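import Mathlib

/-!
Power series attached to the curve `y² = x³ + A x + B`:
`Qs A B = t² ℘(t)` and `Fs A B a x s = t e^{-at} ψ(t)`, where `ψ` solves Lame's equation
`ψ'' = (2 ℘ + x) ψ`.
-/

set_option autoImplicit false

namespace Pool.Agent.W273.HL

open PowerSeries Finset

/-- the operator `t d/dt` on power series -/
noncomputable def th (F : ℝ⟦X⟧) : ℝ⟦X⟧ := X * derivative ℝ F

lemma coeff_th (F : ℝ⟦X⟧) (n : ℕ) : coeff n (th F) = n * coeff n F := by
  unfold th
  cases n with
  | zero => simp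
  | succ n =>
    rw [coeff_succ_X_mul, coeff_derivative]
    push_cast; ring

lemma th_add (F G : ℝ⟦X⟧) : th (F + G) = th F + th G := by
  unfold th; rw [map_add]; ring

lemma th_sub (F G : ℝ⟦X⟧) : th (F - G) = th F - th G := by
  unfold th; rw [map_sub]; ring

lemma th_neg (F : ℝ⟦X⟧) : th (-F) = -th F := by
  unfold th; rw [map_neg]; ring

lemma th_mul (F G : ℝ⟦X⟧) : th (F * G) = th F * G + F * th G := by
  unfold th; rw [Derivation.leibniz]; simp only [smul_eq_mul]; ring

lemma th_C (r : ℝ) : th (C r) = 0 := by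
  unfold th; rw [derivative_C]; ring

lemma th_X : th (X : ℝ⟦X⟧) = X := by
  unfold th; rw [derivative_X]; ring

lemma th_X_pow (n : ℕ) : th ((X : ℝ⟦X⟧) ^ n) = C (n : ℝ) * X ^ n := by
  ext m
  rw [coeff_th, coeff_C_mul, coeff_X_pow]
  split_ifs with h
  · rw [h]
  · simp

/-- the coefficients of `t² ℘(t)` -/
noncomputable def q (A B : ℝ) (n : ℕ) : ℝ :=
  if n = 0 then 1 else if n = 6 then -B / 7 else
    (6 * ∑ i : Fin (n - 1), q A B (i.1 + 1) * q A B (n - 1 - i.1) + if n = 4 then 2 * A else 0) /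
      (((n : ℝ) + 1) * ((n : ℝ) - 6))
termination_by n
decreasing_by
  · have := i.2; omega
  · have := i.2; omega

lemma q_zero (A B : ℝ) : q A B 0 = 1 := by rw [q]; simp

lemma q_six (A B : ℝ) : q A B 6 = -B / 7 := by rw [q]; simp

lemma q_rec (A B : ℝ) (n : ℕ) (h0 : n ≠ 0) (h6 : n ≠ 6) :
    ((n : ℝ) + 1) * ((n : ℝ) - 6) * q A B n =
      6 * ∑ i ∈ range (n - 1), q A B (i + 1) * q A B (n - 1 - i) + if n = 4 then 2 * A else 0 := by
  rw [q, if_neg h0, if_neg h6]
  have h1 : ((n : ℝ) + 1) ≠ 0 := by positivity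
  have h2 : ((n : ℝ) - 6) ≠ 0 := by
    intro h
    apply h6
    have : (n : ℝ) = 6 := by linarith
    exact_mod_cast this
  rw [mul_div_cancel₀ _ (mul_ne_zero h1 h2)]
  rw [Fin.sum_univ_eq_sum_range (fun i => q A B (i + 1) * q A B (n - 1 - i))]

lemma q_one (A B : ℝ) : q A B 1 = 0 := by
  have := q_rec A B 1 (by norm_num) (by norm_num)
  norm_num at this; exact this

lemma q_two (A B : ℝ) : q A B 2 = 0 := by
  have := q_rec A B 2 (by norm_num) (by norm_num)
  norm_num [q_one] at this; exact this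

lemma q_three (A B : ℝ) : q A B 3 = 0 := by
  have := q_rec A B 3 (by norm_num) (by norm_num)
  norm_num [q_one, q_two, Finset.sum_range_succ] at this; exact this

lemma q_four (A B : ℝ) : q A B 4 = -A / 5 := by
  have := q_rec A B 4 (by norm_num) (by norm_num)
  norm_num [q_one, q_two, q_three, Finset.sum_range_succ] at this; linarith

lemma q_five (A B : ℝ) : q A B 5 = 0 := by
  have := q_rec A B 5 (by norm_num) (by norm_num)
  norm_num [q_one, q_two, q_three, Finset.sum_range_succ] at this; exact this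

/-- `q` vanishes at odd indices -/
lemma q_odd (A B : ℝ) (n : ℕ) (hn : Odd n) : q A B n = 0 := by
  induction n using Nat.strong_induction_on with
  | _ n ih =>
    have h0 : n ≠ 0 := by rintro rfl; simp at hn
    have h6 : n ≠ 6 := by rintro rfl; revert hn; decide
    have h4 : n ≠ 4 := by rintro rfl; revert hn; decide
    have h := q_rec A B n h0 h6
    rw [if_neg h4, Finset.sum_eq_zero, mul_zero, add_zero] at h
    · have h1 : ((n : ℝ) + 1) ≠ 0 := by positivity
      have h2 : ((n : ℝ) - 6) ≠ 0 := by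
        intro h
        apply h6
        have : (n : ℝ) = 6 := by linarith
        exact_mod_cast this
      rcases mul_eq_zero.mp h with h | h
      · exact absurd h (mul_ne_zero h1 h2)
      · exact h
    · intro i hi
      rw [mem_range] at hi
      rcases Nat.even_or_odd i with he | ho
      · rw [ih (i + 1) (by omega) he.add_one, zero_mul]
      · rw [ih (n - 1 - i) (by omega) ?_, mul_zero]
        obtain ⟨k, hk⟩ := hn
        obtain ⟨j, hj⟩ := ho
        exact ⟨k - j - 1, by omega⟩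

/-- the series `t² ℘(t)` -/
noncomputable def Qs (A B : ℝ) : ℝ⟦X⟧ := mk (q A B)

lemma coeff_Qs (A B : ℝ) (n : ℕ) : coeff n (Qs A B) = q A B n := coeff_mk _ _

/-- the product `Q · F` coefficientwise, the first term split off -/
lemma coeff_Qs_mul (A B : ℝ) (F : ℝ⟦X⟧) (n : ℕ) :
    coeff n (Qs A B * F) = coeff n F + ∑ i ∈ range n, q A B (i + 1) * coeff (n - 1 - i) F := by
  rw [coeff_mul, Finset.Nat.sum_antidiagonal_eq_sum_range_succ (fun i j => coeff i (Qs A B) * coeff j F),
    Finset.sum_range_succ']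
  simp only [coeff_Qs, q_zero, one_mul, Nat.sub_zero]
  rw [add_comm]
  congr 1
  apply Finset.sum_congr rfl
  intro i _
  rw [Nat.sub_sub, add_comm 1 i]

/-- the differential equation `℘'' = 6 ℘² + 2 A` -/
lemma Qs_ode (A B : ℝ) : th (th (Qs A B)) - C 5 * th (Qs A B) + C 6 * Qs A B =
    C 6 * Qs A B ^ 2 + C (2 * A) * X ^ 4 := by
  ext n
  simp only [map_add, map_sub, coeff_C_mul, coeff_th, coeff_Qs, coeff_X_pow]
  rw [pow_two, coeff_Qs_mul]
  rcases Nat.eq_zero_or_pos n with h0 | h0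
  · subst h0
    simp [coeff_Qs, q_zero]
  · by_cases h6 : n = 6
    · subst h6
      simp [coeff_Qs, q_six, q_one, q_two, q_three, q_four, q_five, Finset.sum_range_succ, q_zero]
      ring
    · have h := q_rec A B n h0.ne' h6
      obtain ⟨m, rfl⟩ : ∃ m, n = m + 1 := ⟨n - 1, by omega⟩
      rw [Finset.sum_range_succ]
      simp only [coeff_Qs, Nat.add_sub_cancel] at h ⊢
      have e2 : q A B (m - m) = 1 := by rw [Nat.sub_self, q_zero]
      rw [e2]
      push_cast at h ⊢
      split_ifs at h ⊢ with h4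
      all_goals linarith

/-- the series `t³ ℘'(t)` -/
noncomputable def Ts (A B : ℝ) : ℝ⟦X⟧ := th (Qs A B) - C 2 * Qs A B

lemma coeff_Ts (A B : ℝ) (n : ℕ) : coeff n (Ts A B) = ((n : ℝ) - 2) * q A B n := by
  unfold Ts
  rw [map_sub, coeff_th, coeff_C_mul, coeff_Qs]; ring

lemma th_Ts (A B : ℝ) : th (Ts A B) =
    C 3 * Ts A B + C 6 * Qs A B ^ 2 + C (2 * A) * X ^ 4 := by
  have h := Qs_ode A B
  unfold Ts
  rw [th_sub, th_mul, th_C]
  have e3 : (C (5 : ℝ) : ℝ⟦X⟧) = C 3 + C 2 := by rw [← map_add]; norm_num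
  have e4 : (C (6 : ℝ) : ℝ⟦X⟧) = C 3 * C 2 := by rw [← map_mul]; norm_num
  rw [e3, e4] at h
  rw [e4]
  linear_combination h

/-- Weierstrass's equation `℘'² = 4 ℘³ + 4 A ℘ + 4 B` -/
lemma Ts_sq (A B : ℝ) : Ts A B ^ 2 =
    C 4 * Qs A B ^ 3 + C (4 * A) * X ^ 4 * Qs A B + C (4 * B) * X ^ 6 := by
  have hT := th_Ts A B
  have hQ : th (Qs A B) = Ts A B + C 2 * Qs A B := by unfold Ts; ring
  set T := Ts A B with hTd
  set Q := Qs A B with hQd
  set R := T ^ 2 - (C 4 * Q ^ 3 + C (4 * A) * X ^ 4 * Q + C (4 * B) * X ^ 6) with hR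
  have key : th R = C 6 * R := by
    rw [hR]
    simp only [pow_succ, pow_zero, one_mul, th_sub, th_add, th_mul, th_C, th_X]
    rw [hT, hQ]
    have c2 : (C (2 : ℝ) : ℝ⟦X⟧) = 2 := by rw [map_ofNat]
    have c3 : (C (3 : ℝ) : ℝ⟦X⟧) = 3 := by rw [map_ofNat]
    have c4 : (C (4 : ℝ) : ℝ⟦X⟧) = 4 := by rw [map_ofNat]
    have c6 : (C (6 : ℝ) : ℝ⟦X⟧) = 6 := by rw [map_ofNat]
    rw [map_mul, map_mul, map_mul, c2, c3, c4, c6]
    ring
  have hR0 : R = 0 := by
    ext n
    have h1 := congrArg (coeff n) key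
    rw [coeff_th, coeff_C_mul] at h1
    by_cases h6 : n = 6
    · subst h6
      rw [hR]
      rw [show C (4 * A) * X ^ 4 * Q = C (4 * A) * (X ^ 4 * Q) by ring]
      simp only [map_sub, map_add, coeff_C_mul, coeff_X_pow, map_zero]
      have e1 : coeff 6 (T ^ 2) = -16 * q A B 6 := by
        rw [pow_two, coeff_mul, Finset.Nat.sum_antidiagonal_eq_sum_range_succ
          (fun i j => coeff i T * coeff j T)]
        simp only [Finset.sum_range_succ, Finset.sum_range_zero, hTd, coeff_Ts]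
        norm_num [q_zero, q_one, q_two, q_three, q_four, q_five]
        ring
      have e2 : coeff 6 (Q ^ 3) = 3 * q A B 6 := by
        rw [pow_succ, pow_two, coeff_mul, Finset.Nat.sum_antidiagonal_eq_sum_range_succ
          (fun i j => coeff i (Q * Q) * coeff j Q)]
        simp only [Finset.sum_range_succ, Finset.sum_range_zero, hQd, coeff_Qs_mul, coeff_Qs]
        norm_num [q_zero, q_one, q_two, q_three, q_four, q_five]
        ring
      have e3 : coeff 6 (X ^ 4 * Q) = 0 := by
        rw [show (6 : ℕ) = 2 + 4 by norm_num, coeff_X_pow_mul, hQd, coeff_Qs, q_two]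
      rw [e1, e2, e3, q_six]
      norm_num
      ring
    · have h2 : ((n : ℝ) - 6) * coeff n R = 0 := by linarith
      rcases mul_eq_zero.mp h2 with h | h
      · exfalso
        apply h6
        have : (n : ℝ) = 6 := by linarith
        exact_mod_cast this
      · rw [h]; simp
  have : T ^ 2 = R + (C 4 * Q ^ 3 + C (4 * A) * X ^ 4 * Q + C (4 * B) * X ^ 6) := by rw [hR]; ring
  rw [this, hR0, zero_add]

end Pool.Agent.W273.HL
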