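import Pool.Agent.W273.HL.Lame

/-!
The shift `a ↦ w = a + ρ`.
-/

set_option autoImplicit false

namespace Pool.Agent.W273.HL

open PowerSeries Finset

/-- the series `exp(ρ t)` -/
noncomputable def E (r : ℝ) : ℝ⟦X⟧ := mk (fun n => r ^ n / (n.factorial : ℝ))

lemma coeff_E (r : ℝ) (n : ℕ) : coeff n (E r) = r ^ n / (n.factorial : ℝ) := coeff_mk _ _

lemma th_E (r : ℝ) : th (E r) = C r * X * E r := by
  ext n
  rw [coeff_th, coeff_E, mul_assoc, coeff_C_mul]
  rcases n with _ | n
  · rw [cX0]; simp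
  · rw [cX, coeff_E, Nat.factorial_succ]
    have h1 : (n.factorial : ℝ) ≠ 0 := by exact_mod_cast Nat.factorial_ne_zero n
    have h2 : ((n : ℝ) + 1) ≠ 0 := by positivity
    push_cast
    field_simp
    ring

lemma L_shift (A B a x r : ℝ) (F : ℝ⟦X⟧) :
    L A B a x (E r * F) = E r * L A B (a + r) x F := by
  unfold L
  have h1 : th (E r * F) = E r * (th F + C r * X * F) := by
    rw [th_mul, th_E]; ring
  have h2 : th (E r * (th F + C r * X * F)) = E r * (th (th F) + 2 * C r * X * th F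
      + C r * X * F + C r ^ 2 * X ^ 2 * F) := by
    rw [th_mul, th_E, th_add, th_mul, th_mul, th_C, th_X]; ring
  rw [h1, h2]
  have c2 : (C (2 : ℝ) : ℝ⟦X⟧) = 2 := by rw [map_ofNat]
  have c3 : (C (3 : ℝ) : ℝ⟦X⟧) = 3 := by rw [map_ofNat]
  simp only [map_mul, map_sub, map_add, map_pow, c2, c3]
  ring

/-- the shift formula -/
lemma f_shift (A B a w y : ℝ) (n : ℕ) :
    f A B a (w ^ 2) (sp (w ^ 2) y a) n =
      ∑ i ∈ range (n + 1), (w - a) ^ i / (i.factorial : ℝ) * g A B w y (n - i) := by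
  have key : Fs A B a (w ^ 2) (sp (w ^ 2) y a) =
      E (w - a) * Fs A B w (w ^ 2) (sp (w ^ 2) y w) := by
    apply L_unique A B a (w ^ 2)
    · exact L_Fs _ _ _ _ _
    · rw [L_shift, show a + (w - a) = w by ring, L_Fs, mul_zero]
    · rw [coeff_mul, Finset.Nat.sum_antidiagonal_eq_sum_range_succ
        (fun i j => coeff i (E (w - a)) * coeff j (Fs A B w (w ^ 2) (sp (w ^ 2) y w)))]
      simp only [Finset.sum_range_succ, Finset.sum_range_zero, coeff_E, coeff_Fs, f_zero]
      norm_num [f_zero]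
    · rw [coeff_mul, Finset.Nat.sum_antidiagonal_eq_sum_range_succ
        (fun i j => coeff i (E (w - a)) * coeff j (Fs A B w (w ^ 2) (sp (w ^ 2) y w)))]
      simp only [Finset.sum_range_succ, Finset.sum_range_zero, coeff_E, coeff_Fs, f_three]
      norm_num [Nat.factorial, f_zero, f_one, f_two, f_three]
      unfold sp
      ring
  have h := congrArg (coeff n) key
  rw [coeff_Fs, coeff_mul, Finset.Nat.sum_antidiagonal_eq_sum_range_succ
        (fun i j => coeff i (E (w - a)) * coeff j (Fs A B w (w ^ 2) (sp (w ^ 2) y w)))] at h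
  rw [h]
  apply Finset.sum_congr rfl
  intro i _
  rw [coeff_E, coeff_Fs]
  rfl

end Pool.Agent.W273.HL
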